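import Pool.Agent.H85.Fold3.Sph

/-!
# Project BL: acyclic complexes, spheres, and adding a vertex
-/

set_option autoImplicit false
set_option linter.unusedSectionVars false

open Finset

namespace Pool.Agent.H19.BL

open Pool.Agent.H85.Fold Pool.Agent.H85.Fold3

variable {V : Type} [DecidableEq V] [Fintype V]

/-- chains of the complex `Δ` in degree `j` -/
def Ch (Δ : Finset V → Prop) (j : ℕ) (z : Finset V → ℝ) : Prop := ∀ σ, z σ ≠ 0 → Δ σ ∧ σ.card = j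

/-- all cycles in degree `j` are boundaries -/
def Ex (Δ : Finset V → Prop) (j : ℕ) : Prop :=
  ∀ ν : V → ℕ, Function.Injective ν → ∀ z : Finset V → ℝ, Ch Δ j z → bd ν z = 0 →
    ∃ y : Finset V → ℝ, Ch Δ (j + 1) y ∧ bd ν y = z

/-- the complex with a new vertex `v` with the link `Λ` -/
def addV (Δ Λ : Finset V → Prop) (v : V) (σ : Finset V) : Prop :=
  (v ∉ σ ∧ Δ σ) ∨ (v ∈ σ ∧ Λ (σ.erase v))

variable {Δ Λ : Finset V → Prop} {v : V}

theorem Ch.add {j : ℕ} {a b : Finset V → ℝ} (ha : Ch Δ j a) (hb : Ch Δ j b) : Ch Δ j (a + b) := by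
  intro σ hσ
  by_cases h : a σ = 0
  · refine hb σ fun h1 => hσ ?_
    rw [Pi.add_apply, h, h1, add_zero]
  · exact ha σ h

theorem Ch.sub {j : ℕ} {a b : Finset V → ℝ} (ha : Ch Δ j a) (hb : Ch Δ j b) : Ch Δ j (a - b) := by
  intro σ hσ
  by_cases h : a σ = 0
  · refine hb σ fun h1 => hσ ?_
    rw [Pi.sub_apply, h, h1, sub_zero]
  · exact ha σ h

theorem Ch.smul {j : ℕ} {a : Finset V → ℝ} (ha : Ch Δ j a) (r : ℝ) : Ch Δ j (r • a) := by
  intro σ hσ
  refine ha σ fun h1 => hσ ?_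
  rw [Pi.smul_apply, h1, smul_zero]

theorem ch_zero (j : ℕ) : Ch Δ j 0 := fun _ h => absurd rfl h

theorem Ch.mono {Δ' : Finset V → Prop} {j : ℕ} {a : Finset V → ℝ} (ha : Ch Δ j a)
    (h : ∀ σ, Δ σ → Δ' σ) : Ch Δ' j a := fun σ hσ => ⟨h σ (ha σ hσ).1, (ha σ hσ).2⟩

theorem Ch.zero_at {j : ℕ} {a : Finset V → ℝ} (ha : Ch Δ j a) (hv : ∀ σ, Δ σ → v ∉ σ) (σ : Finset V)
    (h : v ∈ σ) : a σ = 0 := by
  by_contra h1
  exact hv σ (ha σ h1).1 h

theorem ch_wedge (ν : V → ℕ) {j : ℕ} {a : Finset V → ℝ} (ha : Ch Λ j a) :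
    Ch (addV Δ Λ v) (j + 1) (wedge ν v a) := by
  intro σ hσ
  by_cases hv : v ∈ σ
  · have h1 : a (σ.erase v) ≠ 0 := by
      intro h0
      apply hσ
      change (if v ∈ σ then sgn ν v σ • a (σ.erase v) else 0) = 0
      rw [if_pos hv, h0, smul_zero]
    obtain ⟨h2, h3⟩ := ha _ h1
    exact ⟨Or.inr ⟨hv, h2⟩, by rw [← h3, card_erase_add_one hv]⟩
  · exact absurd (if_neg hv) hσ

theorem Ch.up {j : ℕ} {a : Finset V → ℝ} (ha : Ch Δ j a) (hv : ∀ σ, Δ σ → v ∉ σ) :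
    Ch (addV Δ Λ v) j a := ha.mono fun σ h => Or.inl ⟨hv σ h, h⟩

/-- the part of a chain in the link of `v` -/
theorem ch_comp (ν : V → ℕ) {j : ℕ} {z : Finset V → ℝ} (hz : Ch (addV Δ Λ v) (j + 1) z) :
    Ch Λ j (comp ν v z) := by
  intro σ hσ
  by_cases hv : v ∈ σ
  · exact absurd (if_pos hv) hσ
  · have h1 : z (insert v σ) ≠ 0 := by
      intro h0
      apply hσ
      change (if v ∈ σ then 0 else sgn ν v σ • z (insert v σ)) = 0
      rw [if_neg hv, h0, smul_zero]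
    obtain ⟨h2, h3⟩ := hz _ h1
    rw [card_insert_of_notMem hv] at h3
    rcases h2 with ⟨h2, -⟩ | ⟨-, h2⟩
    · exact absurd (mem_insert_self v σ) h2
    · rw [erase_insert hv] at h2
      exact ⟨h2, by omega⟩

theorem comp_zero_deg (ν : V → ℕ) {z : Finset V → ℝ} (hz : Ch (addV Δ Λ v) 0 z) :
    comp ν v z = 0 := by
  funext σ
  by_cases hv : v ∈ σ
  · exact if_pos hv
  · change (if v ∈ σ then 0 else sgn ν v σ • z (insert v σ)) = 0
    rw [if_neg hv]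
    have h1 : z (insert v σ) = 0 := by
      by_contra h1
      have h2 := (hz _ h1).2
      rw [card_eq_zero] at h2
      exact insert_ne_empty _ _ h2
    rw [h1, smul_zero]

/-- the part of a chain off `v` -/
theorem off_eq (ν : V → ℕ) (z : Finset V → ℝ) :
    z = (fun σ => if v ∈ σ then 0 else z σ) + wedge ν v (comp ν v z) := by
  funext σ
  exact eq_wedge_comp ν v z σ

theorem ch_off {j : ℕ} {z : Finset V → ℝ} (hz : Ch (addV Δ Λ v) j z) :
    Ch Δ j (fun σ => if v ∈ σ then 0 else z σ) := by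
  intro σ hσ
  change (if v ∈ σ then 0 else z σ) ≠ 0 at hσ
  by_cases hv : v ∈ σ
  · rw [if_pos hv] at hσ
    exact absurd rfl hσ
  · rw [if_neg hv] at hσ
    obtain ⟨h1, h2⟩ := hz σ hσ
    rcases h1 with ⟨-, h1⟩ | ⟨h1, -⟩
    · exact ⟨h1, h2⟩
    · exact absurd h1 hv

theorem comp_at (ν : V → ℕ) (z : Finset V → ℝ) (σ : Finset V) (h : v ∈ σ) : comp ν v z σ = 0 :=
  if_pos h

theorem bd_off (ν : V → ℕ) (hν : Function.Injective ν) {z : Finset V → ℝ} (hz : bd ν z = 0) :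
    bd ν (comp ν v z) = 0 ∧ bd ν (fun σ => if v ∈ σ then 0 else z σ) + comp ν v z = 0 := by
  have h1 : bd ν (comp ν v z) = 0 := by
    have h1 := comp_bd ν hν v z
    rw [hz, map_zero] at h1
    exact neg_eq_zero.1 h1.symm
  refine ⟨h1, ?_⟩
  have h2 : bd ν z = 0 := hz
  rw [off_eq (v := v) ν z, map_add, bd_wedge ν hν v _ (comp_at ν z), h1, map_zero, sub_zero] at h2
  exact h2

/-- exactness when a vertex is added, positive degrees -/
theorem ex_add {j : ℕ} (hΔ : Ex Δ (j + 1)) (hΛ : Ex Λ j) (hsub : ∀ σ, Λ σ → Δ σ)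
    (hv : ∀ σ, Δ σ → v ∉ σ) : Ex (addV Δ Λ v) (j + 1) := by
  intro ν hν z hz hz0
  obtain ⟨h1, h2⟩ := bd_off (v := v) ν hν hz0
  obtain ⟨a, ha, hab⟩ := hΛ ν hν _ (ch_comp ν hz) h1
  obtain ⟨y, hy, hyb⟩ := hΔ ν hν _ ((ch_off hz).add (ha.mono hsub)) (by rw [map_add, hab]; exact h2)
  refine ⟨y - wedge ν v a, (hy.up hv).sub (ch_wedge ν ha), ?_⟩
  have hva : ∀ σ, v ∈ σ → a σ = 0 := fun σ h => ha.zero_at (fun σ h => hv σ (hsub σ h)) σ h
  rw [map_sub, bd_wedge ν hν v a hva, hab, hyb]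
  conv_rhs => rw [off_eq (v := v) ν z]
  abel

theorem ex_add_zero (hΔ : Ex Δ 0) (hv : ∀ σ, Δ σ → v ∉ σ) : Ex (addV Δ Λ v) 0 := by
  intro ν hν z hz hz0
  have h1 := comp_zero_deg ν hz
  obtain ⟨y, hy, hyb⟩ := hΔ ν hν _ (ch_off hz) (by
    have h2 := (bd_off (v := v) ν hν hz0).2
    rw [h1, add_zero] at h2
    exact h2)
  refine ⟨y, hy.up hv, ?_⟩
  rw [hyb]
  conv_rhs => rw [off_eq (v := v) ν z, h1, map_zero, add_zero]

/-- adding a vertex with an acyclic link to an acyclic complex -/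
theorem ex_add_all (hΔ : ∀ j, Ex Δ j) (hΛ : ∀ j, Ex Λ j) (hsub : ∀ σ, Λ σ → Δ σ)
    (hv : ∀ σ, Δ σ → v ∉ σ) (j : ℕ) : Ex (addV Δ Λ v) j := by
  rcases j with _ | j
  · exact ex_add_zero (hΔ 0) hv
  · exact ex_add (hΔ (j + 1)) (hΛ j) hsub hv

/-- adding a vertex, whose link is a sphere, to an acyclic complex -/
theorem sph_add {m : ℕ} (hdown : ∀ σ τ, Δ σ → τ ⊆ σ → Δ τ) (hdim : ∀ σ, Δ σ → σ.card ≤ m + 1)
    (hΔ : ∀ j, Ex Δ j) (hΛ : Sph Λ m) (hsub : ∀ σ, Λ σ → Δ σ) (hv : ∀ σ, Δ σ → v ∉ σ) :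
    Sph (addV Δ Λ v) (m + 1) := by
  refine ⟨?_, ?_, ?_, ?_⟩
  · rintro σ τ (⟨h1, h2⟩ | ⟨h1, h2⟩) hs
    · exact Or.inl ⟨fun h => h1 (hs h), hdown σ τ h2 hs⟩
    · by_cases h3 : v ∈ τ
      · exact Or.inr ⟨h3, hΛ.down _ _ h2 (erase_subset_erase v hs)⟩
      · refine Or.inl ⟨h3, hdown _ _ (hsub _ h2) ?_⟩
        rw [← erase_eq_of_notMem h3]
        exact erase_subset_erase v hs
  · rintro σ (⟨-, h2⟩ | ⟨h1, h2⟩)
    · exact hdim σ h2
    · have h3 := hΛ.dim _ h2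
      rw [card_erase_of_mem h1] at h3
      omega
  · intro ν hν j hj z hz hz0
    rcases j with _ | j
    · exact ex_add_zero (hΔ 0) hv ν hν z hz hz0
    · exact ex_add (hΔ (j + 1)) (fun ν hν z hz hz0 => hΛ.low ν hν j (by omega) z hz hz0) hsub hv ν hν
        z hz hz0
  · intro ν hν
    obtain ⟨o, ho, ho0, hne, hu⟩ := hΛ.top ν hν
    have hoC : Ch Λ m o := ho
    have hvo : ∀ σ, v ∈ σ → o σ = 0 := fun σ h => hoC.zero_at (fun σ h => hv σ (hsub σ h)) σ h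
    obtain ⟨w, hw, hwb⟩ := hΔ m ν hν o (hoC.mono hsub) ho0
    have hcw : comp ν v w = 0 := by
      funext σ
      by_cases h : v ∈ σ
      · exact if_pos h
      · change (if v ∈ σ then 0 else sgn ν v σ • w (insert v σ)) = 0
        rw [if_neg h, hw.zero_at hv _ (mem_insert_self v σ), smul_zero]
    have hco : comp ν v (wedge ν v o - w) = o := by
      rw [map_sub, hcw, sub_zero, comp_wedge_self ν v o hvo]
    refine ⟨wedge ν v o - w, (ch_wedge ν hoC).sub (hw.up hv), ?_, ?_, ?_⟩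
    · rw [map_sub, bd_wedge ν hν v o hvo, ho0, map_zero, sub_zero, hwb, sub_self]
    · intro h0
      apply hne
      rw [← hco, h0, map_zero]
    · intro z hz hz0
      obtain ⟨h1, -⟩ := bd_off (v := v) ν hν hz0
      obtain ⟨r, hr⟩ := hu _ (ch_comp ν hz) h1
      refine ⟨r, ?_⟩
      have hC : Ch (addV Δ Λ v) (m + 1) (z - r • (wedge ν v o - w)) :=
        Ch.sub hz (((ch_wedge ν hoC).sub (hw.up hv)).smul r)
      have h3 : comp ν v (z - r • (wedge ν v o - w)) = 0 := by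
        rw [map_sub, map_smul, hco, hr, sub_self]
      have h4 : bd ν (z - r • (wedge ν v o - w)) = 0 := by
        rw [map_sub, map_smul, hz0, map_sub, bd_wedge ν hν v o hvo, ho0, map_zero, sub_zero, hwb,
          sub_self, smul_zero, sub_zero]
      have h5 := off_eq (v := v) ν (z - r • (wedge ν v o - w))
      rw [h3, map_zero, add_zero] at h5
      have h6 := ch_off hC
      rw [← h5] at h6
      obtain ⟨y, hy, hyb⟩ := hΔ (m + 1) ν hν _ h6 h4
      have h7 : y = 0 := by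
        funext σ
        by_contra h8
        obtain ⟨h9, h10⟩ := hy σ h8
        have := hdim σ h9
        omega
      rw [h7, map_zero] at hyb
      exact (sub_eq_zero.1 hyb.symm)

/-- a cone is acyclic -/
theorem ex_cone (hv : ∀ σ, Δ σ → Δ (insert v σ)) (hdown : ∀ σ τ, Δ σ → τ ⊆ σ → Δ τ) (j : ℕ) :
    Ex Δ j := by
  intro ν hν z hz hz0
  obtain ⟨h1, h2⟩ := bd_off (v := v) ν hν hz0
  obtain ⟨c, hc⟩ : ∃ c : Finset V → ℝ, c = fun σ => if v ∈ σ then 0 else z σ := ⟨_, rfl⟩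
  rw [← hc] at h2
  have hcv : ∀ σ, v ∈ σ → c σ = 0 := fun σ h => by rw [hc]; exact if_pos h
  refine ⟨wedge ν v c, ?_, ?_⟩
  · intro σ hσ
    by_cases h : v ∈ σ
    · have h3 : z (σ.erase v) ≠ 0 := by
        intro h0
        apply hσ
        change (if v ∈ σ then sgn ν v σ • c (σ.erase v) else 0) = 0
        rw [if_pos h, hc]
        simp [h0]
      obtain ⟨h4, h5⟩ := hz _ h3
      refine ⟨?_, by rw [← h5, card_erase_add_one h]⟩
      have h6 := hv _ h4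
      rwa [insert_erase h] at h6
    · exact absurd (if_neg h) hσ
  · rw [bd_wedge ν hν v c hcv]
    have h3 : bd ν c = - comp ν v z := eq_neg_of_add_eq_zero_left h2
    rw [h3, map_neg, sub_neg_eq_add, hc]
    exact (off_eq (v := v) ν z).symm

end Pool.Agent.H19.BL
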