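import Pool.Agent.H19.BL.Add
import Pool.Agent.H4.HY.LinkRank

/-!
# Project BL: full subcomplexes, circles, recognition of homology 2-spheres
-/

set_option autoImplicit false
set_option linter.unusedSectionVars false

open Finset

namespace Pool.Agent.H19.BL

open Pool.Agent.H85.Fold Pool.Agent.H85.Fold3

variable {W : Type} [DecidableEq W] [Fintype W] {K : SimpleGraph W}

/-- the full subcomplex on `U` -/
def Fl (K : SimpleGraph W) (U : Finset W) (σ : Finset W) : Prop := σ ⊆ U ∧ Cl K σ

theorem cl_sub {σ τ : Finset W} (h : Cl K σ) (hs : τ ⊆ σ) : Cl K τ :=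
  fun u hu v hv huv => h u (hs hu) v (hs hv) huv

theorem Fl.down {U σ τ : Finset W} (h : Fl K U σ) (hs : τ ⊆ σ) : Fl K U τ :=
  ⟨hs.trans h.1, cl_sub h.2 hs⟩

/-- the common neighbours -/
noncomputable def nb (K : SimpleGraph W) (ρ : Finset W) : Finset W := by
  classical exact univ.filter fun w => w ∉ ρ ∧ ∀ x ∈ ρ, K.Adj x w

theorem mem_nb {ρ : Finset W} {w : W} : w ∈ nb K ρ ↔ w ∉ ρ ∧ ∀ x ∈ ρ, K.Adj x w := by
  classical
  unfold nb
  rw [mem_filter]
  exact ⟨fun h => h.2, fun h => ⟨mem_univ _, h⟩⟩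

theorem mem_nb_one {x w : W} : w ∈ nb K {x} ↔ K.Adj x w := by
  rw [mem_nb]
  constructor
  · rintro ⟨-, h⟩
    exact h x (mem_singleton_self x)
  · intro h
    refine ⟨fun h1 => ?_, fun y hy => ?_⟩
    · rw [mem_singleton] at h1
      exact h.ne h1.symm
    · rw [mem_singleton] at hy
      rw [hy]
      exact h

theorem link_iff_fl {ρ : Finset W} (hρ : Cl K ρ) (σ : Finset W) :
    (Disjoint σ ρ ∧ Cl K (σ ∪ ρ)) ↔ Fl K (nb K ρ) σ := by
  constructor
  · rintro ⟨h1, h2⟩
    refine ⟨fun w hw => mem_nb.2 ⟨fun h => Finset.disjoint_left.1 h1 hw h, fun x hx => ?_⟩,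
      cl_sub h2 subset_union_left⟩
    exact h2 x (mem_union_right _ hx) w (mem_union_left _ hw) fun h =>
      Finset.disjoint_left.1 h1 hw (h ▸ hx)
  · rintro ⟨h1, h2⟩
    refine ⟨Finset.disjoint_left.2 fun w hw h => (mem_nb.1 (h1 hw)).1 h, ?_⟩
    intro u hu v hv huv
    rcases mem_union.1 hu with hu | hu <;> rcases mem_union.1 hv with hv | hv
    · exact h2 u hu v hv huv
    · exact ((mem_nb.1 (h1 hu)).2 v hv).symm
    · exact (mem_nb.1 (h1 hv)).2 u hu
    · exact hρ u hu v hv huv

open Classical in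
theorem fl_insert {U : Finset W} {v : W} (hv : v ∉ U) (σ : Finset W) :
    addV (Fl K U) (Fl K (U.filter (K.Adj v))) v σ ↔ Fl K (insert v U) σ := by
  constructor
  · rintro (⟨h1, h2⟩ | ⟨h1, h2⟩)
    · exact ⟨h2.1.trans (subset_insert _ _), h2.2⟩
    · refine ⟨fun w hw => ?_, fun a ha b hb hab => ?_⟩
      · by_cases h : w = v
        · rw [h]
          exact mem_insert_self _ _
        · exact mem_insert_of_mem (mem_filter.1 (h2.1 (mem_erase.2 ⟨h, hw⟩))).1
      · by_cases ha' : a = v
        · subst ha'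
          exact (mem_filter.1 (h2.1 (mem_erase.2 ⟨fun h => hab h.symm, hb⟩))).2
        · by_cases hb' : b = v
          · subst hb'
            exact (mem_filter.1 (h2.1 (mem_erase.2 ⟨hab, ha⟩))).2.symm
          · exact h2.2 a (mem_erase.2 ⟨ha', ha⟩) b (mem_erase.2 ⟨hb', hb⟩) hab
  · rintro ⟨h1, h2⟩
    by_cases h : v ∈ σ
    · refine Or.inr ⟨h, fun w hw => ?_, cl_sub h2 (erase_subset _ _)⟩
      obtain ⟨h3, h4⟩ := mem_erase.1 hw
      exact mem_filter.2 ⟨(mem_insert.1 (h1 h4)).resolve_left h3, h2 v h w h4 fun h5 => h3 h5.symm⟩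
    · exact Or.inl ⟨h, fun w hw => (mem_insert.1 (h1 hw)).resolve_left fun h3 => h (h3 ▸ hw), h2⟩

theorem Ex.congr {Δ Δ' : Finset W → Prop} {j : ℕ} (h : Ex Δ j) (hΔ : ∀ σ, Δ σ ↔ Δ' σ) : Ex Δ' j := by
  have : Δ = Δ' := funext fun σ => propext (hΔ σ)
  rw [← this]
  exact h

theorem sph_congr {Δ Δ' : Finset W → Prop} {m : ℕ} (h : Sph Δ m) (hΔ : ∀ σ, Δ σ ↔ Δ' σ) :
    Sph Δ' m := by
  have : Δ = Δ' := funext fun σ => propext (hΔ σ)
  rw [← this]
  exact h

/-- acyclic full subcomplexes -/
def Ac (K : SimpleGraph W) (U : Finset W) : Prop := ∀ j, Ex (Fl K U) j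

open Classical in
theorem Ac.ins {U : Finset W} {v : W} (hv : v ∉ U) (h : Ac K U)
    (h' : Ac K (U.filter (K.Adj v))) : Ac K (insert v U) := fun j =>
  (ex_add_all h h' (fun _ hσ => ⟨hσ.1.trans (filter_subset _ _), hσ.2⟩)
    (fun _ hσ hvσ => hv (hσ.1 hvσ)) j).congr (fl_insert hv)

open Classical in
theorem Ac.sph {U : Finset W} {v : W} {m : ℕ} (hv : v ∉ U) (h : Ac K U)
    (hdim : ∀ σ, Fl K U σ → σ.card ≤ m + 1) (h' : Sph (Fl K (U.filter (K.Adj v))) m) :
    Sph (Fl K (insert v U)) (m + 1) :=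
  sph_congr (sph_add (fun _ _ hσ hs => hσ.down hs) hdim h h'
    (fun _ hσ => ⟨hσ.1.trans (filter_subset _ _), hσ.2⟩) (fun _ hσ hvσ => hv (hσ.1 hvσ)))
    (fl_insert hv)

/-- cones -/
theorem ac_cone {U : Finset W} {v : W} (hv : v ∈ U) (h : ∀ w ∈ U, w ≠ v → K.Adj v w) : Ac K U := by
  intro j
  refine ex_cone (v := v) (fun σ hσ => ⟨insert_subset hv hσ.1, ?_⟩) (fun _ _ hσ hs => hσ.down hs) j
  intro a ha b hb hab
  rcases mem_insert.1 ha with rfl | ha'
  · rcases mem_insert.1 hb with rfl | hb'
    · exact absurd rfl hab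
    · exact h b (hσ.1 hb') fun h1 => hab h1.symm
  · rcases mem_insert.1 hb with rfl | hb'
    · exact (h a (hσ.1 ha') hab).symm
    · exact hσ.2 a ha' b hb' hab

theorem ac_single (v : W) : Ac K {v} :=
  ac_cone (mem_singleton_self v) fun w hw h => absurd (mem_singleton.1 hw) h

theorem sph_empty : Sph (Fl K ∅) 0 := by
  have h0 : ∀ σ, Fl K ∅ σ → σ = ∅ := fun σ hσ => subset_empty.1 hσ.1
  refine ⟨fun σ τ h hs => h.down hs, fun σ hσ => by rw [h0 σ hσ]; simp, fun _ _ j hj => absurd hj (by omega),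
    fun ν _ => ⟨Pi.single ∅ 1, ?_, ?_, ?_, ?_⟩⟩
  · intro σ hσ
    by_cases h : σ = ∅
    · subst h
      exact ⟨⟨Finset.Subset.refl _, fun u hu => absurd hu (notMem_empty u)⟩, rfl⟩
    · exact absurd (Pi.single_eq_of_ne h _) hσ
  · funext ρ
    refine Finset.sum_eq_zero fun v _ => ?_
    rw [Pi.single_eq_of_ne (insert_ne_empty _ _), smul_zero]
  · intro h
    have := congrFun h ∅
    rw [Pi.single_eq_same] at this
    exact one_ne_zero this
  · intro z hz _
    refine ⟨z ∅, ?_⟩
    funext σ
    by_cases h : σ = ∅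
    · subst h
      simp
    · rw [Pi.smul_apply, Pi.single_eq_of_ne h, smul_zero]
      by_contra h1
      exact h (h0 σ (hz σ h1).1)

/-- two points -/
theorem sph_two {p q : W} (hpq : p ≠ q) (h : ¬ K.Adj p q) : Sph (Fl K {p, q}) 1 := by
  classical
  have h1 := Ac.sph (K := K) (U := {q}) (v := p) (m := 0) (by simpa using hpq) (ac_single q)
    (fun σ hσ => by
      have := card_le_card hσ.1
      simpa using this)
    (by
      have h2 : ({q} : Finset W).filter (K.Adj p) = ∅ := by
        rw [filter_eq_empty_iff]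
        intro w hw
        rw [mem_singleton.1 hw]
        exact h
      rw [h2]
      exact sph_empty)
  exact h1

/-! ### connected complexes -/

theorem bd_point (ν : W → ℕ) (b : W) :
    bd ν (Pi.single {b} 1 : Finset W → ℝ) = Pi.single ∅ 1 := by
  funext ρ
  change ∑ v ∈ ρᶜ, sgn ν v ρ • (Pi.single {b} 1 : Finset W → ℝ) (insert v ρ) = _
  by_cases h : ρ = ∅
  · subst h
    rw [Pi.single_eq_same, Finset.sum_eq_single b]
    · rw [insert_empty_eq, Pi.single_eq_same]
      unfold sgn
      simp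
    · intro v _ hv
      rw [insert_empty_eq, Pi.single_eq_of_ne (by simpa using hv), smul_zero]
    · intro hb
      simp at hb
  · rw [Pi.single_eq_of_ne h]
    refine Finset.sum_eq_zero fun v hv => ?_
    rw [Pi.single_eq_of_ne, smul_zero]
    intro h1
    obtain ⟨x, hx⟩ := nonempty_iff_ne_empty.2 h
    have h2 : x ∈ ({b} : Finset W) := h1 ▸ mem_insert_of_mem hx
    have h3 : v ∈ ({b} : Finset W) := h1 ▸ mem_insert_self v ρ
    rw [mem_singleton] at h2 h3
    rw [mem_compl] at hv
    exact hv (h3.trans h2.symm ▸ hx)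

theorem wedge_empty (ν : W → ℕ) (a : W) :
    wedge ν a (Pi.single ∅ 1 : Finset W → ℝ) = Pi.single {a} 1 := by
  funext σ
  by_cases h : σ = {a}
  · subst h
    change (if a ∈ ({a} : Finset W) then sgn ν a {a} • (Pi.single ∅ 1 : Finset W → ℝ) (({a} : Finset W).erase a) else 0) = _
    rw [if_pos (mem_singleton_self a), Pi.single_eq_same]
    have h2 : sgn ν a {a} = 1 := by
      unfold sgn
      rw [filter_singleton, if_neg (lt_irrefl _), card_empty, pow_zero]
    rw [h2, one_smul, erase_singleton, Pi.single_eq_same]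
  · rw [Pi.single_eq_of_ne h]
    by_cases h1 : a ∈ σ
    · change (if a ∈ σ then sgn ν a σ • (Pi.single ∅ 1 : Finset W → ℝ) (σ.erase a) else 0) = 0
      rw [if_pos h1, Pi.single_eq_of_ne, smul_zero]
      intro h2
      apply h
      rw [← insert_erase h1, h2, insert_empty_eq]
    · exact if_neg h1

theorem ex_zero {U : Finset W} {y : W} (hy : y ∈ U) : Ex (Fl K U) 0 := by
  intro ν hν z hz _
  refine ⟨z ∅ • Pi.single {y} 1, Ch.smul ?_ _, ?_⟩
  · intro σ hσ
    by_cases h : σ = {y}
    · subst h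
      refine ⟨⟨singleton_subset_iff.2 hy, fun a ha b hb hab => ?_⟩, card_singleton y⟩
      exact absurd ((mem_singleton.1 ha).trans (mem_singleton.1 hb).symm) hab
    · exact absurd (Pi.single_eq_of_ne h _) hσ
  · rw [map_smul, bd_point]
    funext σ
    by_cases h : σ = ∅
    · subst h
      simp
    · rw [Pi.smul_apply, Pi.single_eq_of_ne h, smul_zero]
      by_contra h1
      exact h (card_eq_zero.1 (hz σ fun h2 => h1 h2.symm).2)

theorem ex_one {U : Finset W} {x : W} (hx : x ∈ U)
    (hc : ∀ y ∈ U, Relation.ReflTransGen (fun a b => a ∈ U ∧ b ∈ U ∧ K.Adj a b) x y) :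
    Ex (Fl K U) 1 := by
  intro ν hν z hz hz0
  have hpath : ∀ y, Relation.ReflTransGen (fun a b => a ∈ U ∧ b ∈ U ∧ K.Adj a b) x y →
      ∃ c : Finset W → ℝ, Ch (Fl K U) 2 c ∧ bd ν c = Pi.single {y} 1 - Pi.single {x} 1 := by
    intro y hy
    induction hy with
    | refl => exact ⟨0, ch_zero 2, by rw [map_zero, sub_self]⟩
    | @tail a b _ hab ih =>
      obtain ⟨c, hc1, hc2⟩ := ih
      obtain ⟨ha, hb, hab⟩ := hab
      refine ⟨c + wedge ν a (Pi.single {b} 1), hc1.add ?_, ?_⟩
      · intro σ hσ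
        by_cases h1 : a ∈ σ
        · have h2 : σ.erase a = {b} := by
            by_contra h2
            apply hσ
            change (if a ∈ σ then sgn ν a σ • (Pi.single {b} 1 : Finset W → ℝ) (σ.erase a) else 0) = 0
            rw [if_pos h1, Pi.single_eq_of_ne h2, smul_zero]
          have h3 : σ = {a, b} := by
            rw [← insert_erase h1, h2]
          rw [h3]
          refine ⟨⟨?_, ?_⟩, card_pair hab.ne⟩
          · intro w hw
            rw [mem_insert, mem_singleton] at hw
            rcases hw with rfl | rfl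
            · exact ha
            · exact hb
          · intro u hu v hv huv
            rw [mem_insert, mem_singleton] at hu hv
            rcases hu with rfl | rfl <;> rcases hv with rfl | rfl
            · exact absurd rfl huv
            · exact hab
            · exact hab.symm
            · exact absurd rfl huv
        · exact absurd (if_neg h1) hσ
      · rw [map_add, hc2, bd_wedge ν hν a _ ?_, bd_point, wedge_empty]
        · abel
        · intro σ h
          rw [Pi.single_eq_of_ne]
          intro h1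
          rw [h1, mem_singleton] at h
          exact hab.ne h
  choose c hc1 hc2 using fun y : U => hpath y.1 (hc y.1 y.2)
  refine ⟨∑ y : U, z {y.1} • c y, ?_, ?_⟩
  · have h1 : ∀ s : Finset U, Ch (Fl K U) 2 (∑ y ∈ s, z {y.1} • c y) := by
      intro s
      induction s using Finset.induction_on with
      | empty => rw [sum_empty]; exact ch_zero 2
      | insert a s ha ih => rw [sum_insert ha]; exact ((hc1 a).smul _).add ih
    exact h1 univ
  · rw [map_sum]
    have hsup : ∀ y, y ∉ U → z {y} = 0 := by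
      intro y hy
      by_contra h
      exact hy (singleton_subset_iff.1 (hz _ h).1.1)
    have hsum : ∑ y : U, z {y.1} = 0 := by
      have h1 := congrFun hz0 ∅
      change ∑ v ∈ (∅ : Finset W)ᶜ, sgn ν v ∅ • z (insert v ∅) = 0 at h1
      rw [compl_empty] at h1
      have h2 : ∑ y ∈ U, z {y} = ∑ v : W, sgn ν v ∅ • z (insert v ∅) := by
        rw [← Finset.sum_subset (subset_univ U)]
        · refine Finset.sum_congr rfl fun v _ => ?_
          unfold sgn
          simp
        · intro v _ hv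
          rw [insert_empty_eq, hsup v hv, smul_zero]
      rw [Finset.sum_coe_sort U (fun y => z {y}), h2, h1]
    have h3 : ∀ y : U, bd ν (z {y.1} • c y) = z {y.1} • Pi.single {y.1} 1 - z {y.1} • Pi.single {x} 1 := by
      intro y
      rw [map_smul, hc2, smul_sub]
    rw [Finset.sum_congr rfl fun y _ => h3 y, Finset.sum_sub_distrib, ← Finset.sum_smul, hsum,
      zero_smul, sub_zero]
    rw [Finset.sum_coe_sort U (fun y => z {y} • (Pi.single {y} 1 : Finset W → ℝ))]
    funext σ
    rw [Finset.sum_apply]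
    by_cases h : ∃ y, σ = {y}
    · obtain ⟨y, rfl⟩ := h
      by_cases hy : y ∈ U
      · rw [Finset.sum_eq_single y]
        · simp
        · intro w _ hw
          rw [Pi.smul_apply, Pi.single_eq_of_ne, smul_zero]
          exact fun h1 => hw (singleton_injective h1).symm
        · exact fun h1 => absurd hy h1
      · rw [hsup y hy]
        refine Finset.sum_eq_zero fun w hw => ?_
        rw [Pi.smul_apply, Pi.single_eq_of_ne, smul_zero]
        exact fun h1 => hy (singleton_injective h1 ▸ hw)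
    · have h1 : z σ = 0 := by
        by_contra h1
        exact h (card_eq_one.1 (hz σ h1).2)
      rw [h1]
      refine Finset.sum_eq_zero fun w _ => ?_
      rw [Pi.smul_apply, Pi.single_eq_of_ne, smul_zero]
      exact fun h2 => h ⟨w, h2⟩

end Pool.Agent.H19.BL
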