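import Pool.Agent.H19.BL.Circ

/-!
# Project BL: recognition of homology 2-spheres
-/

set_option autoImplicit false
set_option linter.unusedSectionVars false

open Finset

namespace Pool.Agent.H19.BL

open Pool.Agent.H85.Fold Pool.Agent.H85.Fold3 Pool.Agent.H4.HY

variable {W : Type} [DecidableEq W] [Fintype W] {K : SimpleGraph W}

/-- every edge has exactly two common neighbours, and they are not adjacent -/
def T2 (K : SimpleGraph W) : Prop :=
  ∀ x y, K.Adj x y → ∃ p q, p ≠ q ∧ ¬ K.Adj p q ∧ ∀ w, (K.Adj x w ∧ K.Adj y w) ↔ w = p ∨ w = q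

theorem mem_nb_two {x y w : W} : w ∈ nb K {x, y} ↔ K.Adj x w ∧ K.Adj y w := by
  rw [mem_nb]
  constructor
  · rintro ⟨-, h⟩
    exact ⟨h x (by simp), h y (by simp)⟩
  · rintro ⟨h1, h2⟩
    refine ⟨fun h => ?_, fun z hz => ?_⟩
    · rw [mem_insert, mem_singleton] at h
      rcases h with h | h
      · exact h1.ne h.symm
      · exact h2.ne h.symm
    · rw [mem_insert, mem_singleton] at hz
      rcases hz with rfl | rfl
      · exact h1
      · exact h2

theorem T2.nb_eq (h : T2 K) {x y : W} (hxy : K.Adj x y) :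
    ∃ p q, p ≠ q ∧ ¬ K.Adj p q ∧ nb K {x, y} = {p, q} := by
  obtain ⟨p, q, h1, h2, h3⟩ := h x y hxy
  refine ⟨p, q, h1, h2, ?_⟩
  ext w
  rw [mem_nb_two, h3, mem_insert, mem_singleton]

theorem T2.dim (h : T2 K) {σ : Finset W} (hσ : Cl K σ) : σ.card ≤ 3 := by
  by_contra hc
  have h4 : 2 < σ.card := by omega
  obtain ⟨x, y, z, hx, hy, hz, hxy, hxz, hyz⟩ := two_lt_card_iff.1 h4
  obtain ⟨w, hw, hw'⟩ : ∃ w ∈ σ, w ∉ ({x, y, z} : Finset W) := by
    by_contra h5
    push Not at h5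
    have h6 := card_le_card (show σ ⊆ {x, y, z} from fun w hw => h5 w hw)
    have h7 : ({x, y, z} : Finset W).card ≤ 3 := card_le_three
    omega
  simp only [mem_insert, mem_singleton, not_or] at hw'
  obtain ⟨p, q, h5, h6, h7⟩ := h x y (hσ x hx y hy hxy)
  have h8 := (h7 z).1 ⟨hσ x hx z hz hxz, hσ y hy z hz hyz⟩
  have h9 := (h7 w).1 ⟨hσ x hx w hw fun h => hw'.1 h.symm, hσ y hy w hw fun h => hw'.2.1 h.symm⟩
  have h10 : K.Adj z w := hσ z hz w hw fun h => hw'.2.2 h.symm
  rcases h8 with rfl | rfl <;> rcases h9 with rfl | rfl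
  · exact hw'.2.2 rfl
  · exact h6 h10
  · exact h6 h10.symm
  · exact hw'.2.2 rfl

theorem cl_pair {x y : W} (h : K.Adj x y) : Cl K {x, y} := by
  intro u hu v hv huv
  rw [mem_insert, mem_singleton] at hu hv
  rcases hu with rfl | rfl <;> rcases hv with rfl | rfl
  · exact absurd rfl huv
  · exact h
  · exact h.symm
  · exact absurd rfl huv

theorem cl_single (x : W) : Cl K {x} := by
  intro u hu v hv huv
  exact absurd ((mem_singleton.1 hu).trans (mem_singleton.1 hv).symm) huv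

/-- **Recognition of homology 2-spheres.** -/
theorem sphere3 (h : T2 K) (hv : ∀ x, Sph (Fl K (nb K {x})) 2) (hu : Sph (Fl K univ) 3) :
    IsHomologySphere K 3 := by
  rw [isHomologySphere_iff]
  intro ρ hρ
  have h3 := h.dim hρ
  refine ⟨h3, sph_congr ?_ fun σ => (link_iff_fl hρ σ).symm⟩
  obtain ⟨m, hm⟩ : ∃ m, m = ρ.card := ⟨_, rfl⟩
  rw [← hm] at h3 ⊢
  have hcase : m = 0 ∨ m = 1 ∨ m = 2 ∨ m = 3 := by omega
  rcases hcase with rfl | rfl | rfl | rfl
  · obtain rfl := card_eq_zero.1 hm.symm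
    have h4 : nb K ∅ = univ := by
      ext w
      rw [mem_nb]
      simp
    rw [h4]
    exact hu
  · obtain ⟨x, rfl⟩ := card_eq_one.1 hm.symm
    exact hv x
  · obtain ⟨x, y, hxy, rfl⟩ := card_eq_two.1 hm.symm
    obtain ⟨p, q, h5, h6, h7⟩ := h.nb_eq (hρ x (by simp) y (by simp) hxy)
    rw [h7]
    exact sph_two h5 h6
  · have h4 : nb K ρ = ∅ := by
      by_contra h5
      obtain ⟨w, hw⟩ := nonempty_iff_ne_empty.2 h5
      rw [mem_nb] at hw
      have h6 : Cl K (insert w ρ) := by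
        intro a ha b hb hab
        rcases mem_insert.1 ha with rfl | ha'
        · rcases mem_insert.1 hb with rfl | hb'
          · exact absurd rfl hab
          · exact (hw.2 b hb').symm
        · rcases mem_insert.1 hb with rfl | hb'
          · exact hw.2 a ha'
          · exact hρ a ha' b hb' hab
      have h7 := h.dim h6
      rw [card_insert_of_notMem hw.1] at h7
      omega
    rw [h4]
    exact sph_empty

/-! ### circles -/

theorem pl_iff {x : W} {j : ℕ} {σ : Finset W} :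
    PL K {x} j σ ↔ Fl K (nb K {x}) σ ∧ σ.card = j := by
  unfold PL
  rw [← and_assoc, link_iff_fl (cl_single x)]

open Classical in
/-- the number of edges and of vertices of the link of a vertex -/
theorem T2.count (h : T2 K) (x : W) :
    Fintype.card {σ // PL K {x} 2 σ} = Fintype.card {σ // PL K {x} 1 σ} := by
  have h1 : Fintype.card {σ // PL K {x} 1 σ} = (nb K {x}).card := by
    rw [Fintype.card_subtype, ← card_map ⟨fun y : W => ({y} : Finset W), singleton_injective⟩]
    congr 1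
    ext σ
    rw [mem_filter, mem_map]
    constructor
    · rintro ⟨-, h1⟩
      obtain ⟨h2, h3⟩ := pl_iff.1 h1
      obtain ⟨y, rfl⟩ := card_eq_one.1 h3
      exact ⟨y, h2.1 (mem_singleton_self y), rfl⟩
    · rintro ⟨y, hy, rfl⟩
      exact ⟨mem_univ _, pl_iff.2 ⟨⟨singleton_subset_iff.2 hy, cl_single y⟩, card_singleton y⟩⟩
  have h2 : Fintype.card {σ // PL K {x} 2 σ} = (univ.filter fun σ => PL K {x} 2 σ).card :=
    Fintype.card_subtype _
  rw [h1, h2]
  have h3 := Finset.sum_card_bipartiteAbove_eq_sum_card_bipartiteBelow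
    (s := nb K {x}) (t := univ.filter fun σ => PL K {x} 2 σ) (fun (y : W) (σ : Finset W) => y ∈ σ)
  have h4 : ∀ y ∈ nb K {x}, (Finset.bipartiteAbove (fun (y : W) (σ : Finset W) => y ∈ σ)
      (univ.filter fun σ => PL K {x} 2 σ) y).card = 2 := by
    intro y hy
    have hxy := mem_nb_one.1 hy
    obtain ⟨p, q, hpq, hn, hw⟩ := h x y hxy
    have hp := (hw p).2 (Or.inl rfl)
    have hq := (hw q).2 (Or.inr rfl)
    have h5 : Finset.bipartiteAbove (fun (y : W) (σ : Finset W) => y ∈ σ)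
        (univ.filter fun σ => PL K {x} 2 σ) y = {{y, p}, {y, q}} := by
      ext σ
      rw [Finset.mem_bipartiteAbove, mem_filter, mem_insert, mem_singleton]
      constructor
      · rintro ⟨⟨-, h6⟩, h7⟩
        obtain ⟨⟨h8, h9⟩, h10⟩ := pl_iff.1 h6
        obtain ⟨w, hw1, hw2⟩ : ∃ w, w ≠ y ∧ σ = {y, w} := by
          have h11 : (σ.erase y).card = 1 := by
            rw [card_erase_of_mem h7, h10]
          obtain ⟨w, hw⟩ := card_eq_one.1 h11
          have h12 : w ∈ σ.erase y := hw ▸ mem_singleton_self w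
          refine ⟨w, (mem_erase.1 h12).1, ?_⟩
          rw [← insert_erase h7, hw]
        subst hw2
        have h12 := mem_nb_one.1 (h8 (show w ∈ ({y, w} : Finset W) by simp))
        have h13 := h9 y (by simp) w (by simp) hw1.symm
        rcases (hw w).1 ⟨h12, h13⟩ with rfl | rfl
        · exact Or.inl rfl
        · exact Or.inr rfl
      · have h6 : ∀ w, K.Adj x w ∧ K.Adj y w → PL K {x} 2 {y, w} := by
          rintro w ⟨h6, h7⟩
          refine pl_iff.2 ⟨⟨?_, cl_pair h7⟩, card_pair h7.ne⟩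
          intro u hu
          rw [mem_insert, mem_singleton] at hu
          rcases hu with rfl | rfl
          · exact hy
          · exact mem_nb_one.2 h6
        rintro (rfl | rfl)
        · exact ⟨⟨mem_univ _, h6 p hp⟩, by simp⟩
        · exact ⟨⟨mem_univ _, h6 q hq⟩, by simp⟩
    rw [h5, card_pair]
    intro h6
    have h7 : p ∈ ({y, q} : Finset W) := h6 ▸ (by simp)
    rw [mem_insert, mem_singleton] at h7
    rcases h7 with h7 | h7
    · exact hp.2.ne h7.symm
    · exact hpq h7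
  have h5 : ∀ σ ∈ univ.filter (fun σ => PL K {x} 2 σ),
      (Finset.bipartiteBelow (fun (y : W) (σ : Finset W) => y ∈ σ) (nb K {x}) σ).card = 2 := by
    intro σ hσ
    obtain ⟨h6, h7⟩ := pl_iff.1 (mem_filter.1 hσ).2
    have h8 : Finset.bipartiteBelow (fun (y : W) (σ : Finset W) => y ∈ σ) (nb K {x}) σ = σ := by
      ext w
      rw [Finset.mem_bipartiteBelow]
      exact ⟨fun h => h.2, fun h => ⟨h6.1 h, h⟩⟩
    rw [h8, h7]
  rw [Finset.sum_congr rfl h4, Finset.sum_congr rfl h5, sum_const, sum_const, smul_eq_mul,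
    smul_eq_mul] at h3
  omega

/-- **Circles**: a connected link is a circle. -/
theorem T2.circ (h : T2 K) (x : W) (h0 : Ex (Fl K (nb K {x})) 0) (h1 : Ex (Fl K (nb K {x})) 1) :
    Sph (Fl K (nb K {x})) 2 := by
  classical
  have hb : ∀ (ν : W → ℕ) (y : Finset W → ℝ), bd ν y = bdK ℝ ν y := by
    intro ν y
    funext τ
    rw [SphereAux.bd_apply, bdK_apply]
    exact sum_congr rfl fun v _ => by rw [sgn_eq_sg]
  refine ⟨fun σ τ hσ hs => hσ.down hs, ?_, ?_, ?_⟩
  · intro σ hσ
    have hx : x ∉ σ := fun hx => (mem_nb.1 (hσ.1 hx)).1 (mem_singleton_self x)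
    have h2 : Cl K (insert x σ) := by
      have h3 := ((link_iff_fl (cl_single x) σ).2 hσ).2
      rwa [union_comm, ← insert_eq] at h3
    have h3 := h.dim h2
    rw [card_insert_of_notMem hx] at h3
    omega
  · intro ν hν j hj z hz hz0
    have hcase : j = 0 ∨ j = 1 := by omega
    rcases hcase with rfl | rfl
    · exact h0 ν hν z hz hz0
    · exact h1 ν hν z hz hz0
  · intro ν hν
    have hex : ∀ j, Ex (Fl K (nb K {x})) j → ExL ℝ ν K {x} j := by
      intro j hj z hz hz0
      obtain ⟨y, hy, hyz⟩ := hj ν hν z (fun σ hσ => pl_iff.1 (hz σ hσ)) (by rw [hb]; exact hz0)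
      exact ⟨y, fun σ hσ => pl_iff.2 (hy σ hσ), by rw [← hb]; exact hyz⟩
    have e0 := zd_zero (K := ℝ) ν K {x}
    have e1 := zd_succ ν hν K {x} 0 (hex 0 h0)
    have e2 := zd_succ ν hν K {x} 1 (hex 1 h1)
    have hf : ∀ j, Module.finrank ℝ (supS ℝ (PL K {x} j)) = Fintype.card {σ // PL K {x} j σ} := by
      intro j
      rw [(supEquiv ℝ (PL K {x} j)).finrank_eq, Module.finrank_fintype_fun_eq_card]
    rw [hf] at e0 e1 e2
    have hc := h.count x
    have hc0 : Fintype.card {σ // PL K {x} 0 σ} = 1 := by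
      rw [Fintype.card_eq_one_iff]
      refine ⟨⟨∅, pl_iff.2 ⟨⟨empty_subset _, fun u hu => absurd hu (notMem_empty u)⟩, rfl⟩⟩, ?_⟩
      rintro ⟨σ, hσ⟩
      exact Subtype.ext (card_eq_zero.1 (pl_iff.1 hσ).2)
    have h2 : zd ℝ ν K {x} 2 = 1 := by
      have h3 : zd ℝ ν K {x} (0 + 1) = zd ℝ ν K {x} 1 := rfl
      have h4 : zd ℝ ν K {x} (1 + 1) = zd ℝ ν K {x} 2 := rfl
      have h5 : Fintype.card {σ // PL K {x} (0 + 1) σ} = Fintype.card {σ // PL K {x} 1 σ} := rfl
      have h6 : Fintype.card {σ // PL K {x} (1 + 1) σ} = Fintype.card {σ // PL K {x} 2 σ} := rfl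
      omega
    obtain ⟨o, ho, ho'⟩ := finrank_eq_one_iff'.1 h2
    refine ⟨o.1, fun σ hσ => pl_iff.1 (o.2.1 σ hσ), by rw [hb]; exact LinearMap.mem_ker.1 o.2.2,
      fun h3 => ho (Subtype.ext h3), fun z hz hz0 => ?_⟩
    obtain ⟨r, hr⟩ := ho' ⟨z, fun σ hσ => pl_iff.2 (hz σ hσ), LinearMap.mem_ker.2 (by rw [← hb]; exact hz0)⟩
    exact ⟨r, (congrArg Subtype.val hr).symm⟩

end Pool.Agent.H19.BL
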