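import Pool.Agent.H85.Fold4.Base

/-!
# Project BL: homology balls
-/

set_option autoImplicit false

open Finset

namespace Pool.Agent.H19.BL

open Pool.Agent.H85.Fold4

variable {V : Type} [DecidableEq V] [Fintype V]

/-- real simplicial chains of degree `j` of the link of `ρ` in the complex `B` -/
def BdCh (B : Finset V → Prop) (ρ : Finset V) (j : ℕ) (z : Finset V → ℝ) : Prop :=
  ∀ σ, z σ ≠ 0 → Disjoint σ ρ ∧ B (σ ∪ ρ) ∧ σ.card = j

/-- The clique complex of `G` is a real homology ball of dimension `n - 1` with boundary complex `B` (or a real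
homology sphere, if `B` is empty): the links of the cliques `ρ` outside of `B` have the homology of the sphere of
dimension `n - 1 - |ρ|`, the links of the cliques in `B` (also of `∅`) have the homology of a point, and `B`
is a homology sphere of dimension `n - 2`. -/
structure HomologyBall (G : SimpleGraph V) (n : ℕ) (B : Finset V → Prop) : Prop where
  sub : ∀ σ, B σ → G.IsClique (σ : Set V) ∧ ∀ τ, τ ⊆ σ → B τ
  dim : ∀ σ : Finset V, G.IsClique (σ : Set V) → σ.card ≤ n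
  low : ∀ ν : V → ℕ, Function.Injective ν → ∀ ρ : Finset V, G.IsClique (ρ : Set V) → ∀ j,
    j + ρ.card < n → ∀ z, LinkCh G ρ j z → bdy ν z = 0 → ∃ y, LinkCh G ρ (j + 1) y ∧ bdy ν y = z
  top : ∀ ν : V → ℕ, Function.Injective ν → ∀ ρ : Finset V, G.IsClique (ρ : Set V) → ¬ B ρ → ∀ j,
    j + ρ.card = n → ∃ o, LinkCh G ρ j o ∧ bdy ν o = 0 ∧ o ≠ 0 ∧
      ∀ z, LinkCh G ρ j z → bdy ν z = 0 → ∃ r : ℝ, z = r • o
  ball : ∀ ν : V → ℕ, Function.Injective ν → ∀ ρ, B ρ → ∀ j,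
    j + ρ.card = n → ∀ z, LinkCh G ρ j z → bdy ν z = 0 → z = 0
  bdLow : ∀ ν : V → ℕ, Function.Injective ν → ∀ ρ, B ρ → ∀ j,
    j + ρ.card + 1 < n → ∀ z, BdCh B ρ j z → bdy ν z = 0 → ∃ y, BdCh B ρ (j + 1) y ∧ bdy ν y = z
  bdTop : ∀ ν : V → ℕ, Function.Injective ν → ∀ ρ, B ρ → ∀ j,
    j + ρ.card + 1 = n → ∃ o, BdCh B ρ j o ∧ bdy ν o = 0 ∧ o ≠ 0 ∧
      ∀ z, BdCh B ρ j z → bdy ν z = 0 → ∃ r : ℝ, z = r • o

end Pool.Agent.H19.BL
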