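import Pool.Agent.H19.BL.Circ

/-!
# Project BL: images and preimages of complexes; small complexes
-/

set_option autoImplicit false
set_option linter.unusedSectionVars false

open Finset

namespace Pool.Agent.H19.BL

open Pool.Agent.H85.Fold Pool.Agent.H85.Fold3

variable {V V' : Type} [DecidableEq V] [Fintype V] [DecidableEq V'] [Fintype V']

private theorem sgn_map (φ : V ↪ V') (ν' : V' → ℕ) (v : V) (σ : Finset V) :
    sgn ν' (φ v) (σ.map φ) = sgn (fun x => ν' (φ x)) v σ := by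
  unfold sgn
  rw [Finset.filter_map, Finset.card_map]
  rfl

private theorem bd_pull (φ : V ↪ V') (ν' : V' → ℕ) (z' : Finset V' → ℝ)
    (hz : ∀ σ', z' σ' ≠ 0 → ∃ σ : Finset V, σ' = σ.map φ) (ρ : Finset V) :
    bd ν' z' (ρ.map φ) = bd (fun x => ν' (φ x)) (fun σ => z' (σ.map φ)) ρ := by
  change ∑ v' ∈ (ρ.map φ)ᶜ, sgn ν' v' (ρ.map φ) • z' (insert v' (ρ.map φ)) =
    ∑ v ∈ ρᶜ, sgn (fun x => ν' (φ x)) v ρ • z' ((insert v ρ).map φ)
  have h1 : ρᶜ.map φ ⊆ (ρ.map φ)ᶜ := by
    intro v' hv'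
    rw [Finset.mem_map] at hv'
    obtain ⟨v, hv, rfl⟩ := hv'
    rw [Finset.mem_compl] at hv ⊢
    intro h
    exact hv ((Finset.mem_map' φ).1 h)
  rw [← Finset.sum_subset h1, Finset.sum_map]
  · refine Finset.sum_congr rfl ?_
    intro v _
    rw [sgn_map, Finset.map_insert]
  · intro v' hv' hn
    by_contra hne
    have h2 : z' (insert v' (ρ.map φ)) ≠ 0 := by
      intro h0
      exact hne (by rw [h0, smul_zero])
    obtain ⟨σ, hσ⟩ := hz _ h2
    have h3 : v' ∈ σ.map φ := hσ ▸ Finset.mem_insert_self _ _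
    rw [Finset.mem_map] at h3
    obtain ⟨v, _, rfl⟩ := h3
    apply hn
    rw [Finset.mem_map' φ, Finset.mem_compl]
    intro h4
    exact (Finset.mem_compl.1 hv') ((Finset.mem_map' φ).2 h4)

open Classical in
/-- the image of a chain -/
private noncomputable def push (φ : V ↪ V') (z : Finset V → ℝ) : Finset V' → ℝ :=
  fun σ' => if h : ∃ σ : Finset V, σ' = σ.map φ then z h.choose else 0

private theorem push_map (φ : V ↪ V') (z : Finset V → ℝ) (σ : Finset V) :
    push φ z (σ.map φ) = z σ := by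
  have h : ∃ τ : Finset V, σ.map φ = τ.map φ := ⟨σ, rfl⟩
  unfold push
  rw [dif_pos h]
  exact congrArg z (Finset.map_injective φ h.choose_spec).symm

private theorem push_ne (φ : V ↪ V') (z : Finset V → ℝ) (σ' : Finset V')
    (h : push φ z σ' ≠ 0) : ∃ σ : Finset V, z σ ≠ 0 ∧ σ' = σ.map φ := by
  by_cases h1 : ∃ σ : Finset V, σ' = σ.map φ
  · obtain ⟨σ, rfl⟩ := h1
    rw [push_map] at h
    exact ⟨σ, h, rfl⟩
  · exfalso
    apply h
    unfold push
    exact dif_neg h1

private theorem push_pull (φ : V ↪ V') (z' : Finset V' → ℝ)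
    (hz : ∀ σ', z' σ' ≠ 0 → ∃ σ : Finset V, σ' = σ.map φ) :
    push φ (fun σ => z' (σ.map φ)) = z' := by
  funext σ'
  by_cases h1 : ∃ σ : Finset V, σ' = σ.map φ
  · obtain ⟨σ, rfl⟩ := h1
    rw [push_map]
  · have h2 : z' σ' = 0 := by
      by_contra h
      exact h1 (hz σ' h)
    rw [h2]
    unfold push
    exact dif_neg h1

private theorem bd_push (φ : V ↪ V') (ν' : V' → ℕ) (z : Finset V → ℝ) :
    bd ν' (push φ z) = push φ (bd (fun x => ν' (φ x)) z) := by
  funext ρ'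
  by_cases h1 : ∃ ρ : Finset V, ρ' = ρ.map φ
  · obtain ⟨ρ, rfl⟩ := h1
    rw [push_map, bd_pull φ ν' (push φ z)
      (fun σ' h => (push_ne φ z σ' h).imp fun _ h => h.2)]
    exact congrArg (fun g => bd (fun x => ν' (φ x)) g ρ) (funext fun σ => push_map φ z σ)
  · have h2 : push φ (bd (fun x => ν' (φ x)) z) ρ' = 0 := by
      unfold push
      exact dif_neg h1
    rw [h2]
    change ∑ v' ∈ ρ'ᶜ, sgn ν' v' ρ' • push φ z (insert v' ρ') = 0
    refine Finset.sum_eq_zero ?_
    intro v' _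
    have h3 : push φ z (insert v' ρ') = 0 := by
      by_contra h
      obtain ⟨σ, _, hσ⟩ := push_ne φ z _ h
      have h4 : ρ' ⊆ σ.map φ := hσ ▸ Finset.subset_insert v' ρ'
      obtain ⟨τ, _, hτ⟩ := Finset.subset_map_iff.1 h4
      exact h1 ⟨τ, hτ⟩
    rw [h3, smul_zero]

/-- extension of an injective function -/
theorem exists_ext (φ : V ↪ V') (ν : V → ℕ) (hν : Function.Injective ν) :
    ∃ ν' : V' → ℕ, Function.Injective ν' ∧ (fun v => ν' (φ v)) = ν := by
  classical
  obtain ⟨N, hN⟩ : ∃ N, ∀ v, ν v ≤ N := ⟨univ.sup ν, fun v => le_sup (mem_univ v)⟩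
  have h1 : ∀ v' : V', ∀ h : ∃ v, φ v = v', φ h.choose = v' := fun _ h => h.choose_spec
  refine ⟨fun v' => if h : ∃ v, φ v = v' then ν h.choose else N + 1 + (Fintype.equivFin V' v' : ℕ), ?_, ?_⟩
  · intro u v huv
    by_cases hu : ∃ x, φ x = u <;> by_cases hv : ∃ x, φ x = v
    · simp only [hu, hv, dif_pos] at huv
      rw [← h1 u hu, ← h1 v hv, hν huv]
    · simp only [hu, hv, dif_pos, dif_neg, not_false_iff] at huv
      have := hN hu.choose
      omega
    · simp only [hu, hv, dif_pos, dif_neg, not_false_iff] at huv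
      have := hN hv.choose
      omega
    · simp only [hu, hv, dif_neg, not_false_iff] at huv
      exact (Fintype.equivFin V').injective (Fin.ext (by omega))
  · funext v
    have h : ∃ x, φ x = φ v := ⟨v, rfl⟩
    simp only [h, dif_pos]
    exact congrArg ν (φ.injective (h1 _ h))

private theorem ch_push {Δ : Finset V' → Prop} {φ : V ↪ V'} {j : ℕ} {z : Finset V → ℝ}
    (hz : Ch (fun σ => Δ (σ.map φ)) j z) : Ch Δ j (push φ z) := by
  intro σ' hσ'
  obtain ⟨σ, h1, rfl⟩ := push_ne φ z σ' hσ'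
  exact ⟨(hz σ h1).1, by rw [card_map]; exact (hz σ h1).2⟩

private theorem ch_pull {Δ : Finset V' → Prop} (φ : V ↪ V') {j : ℕ} {z : Finset V' → ℝ}
    (hz : Ch Δ j z) : Ch (fun σ => Δ (σ.map φ)) j (fun σ => z (σ.map φ)) := by
  intro σ hσ
  obtain ⟨h1, h2⟩ := hz _ hσ
  rw [card_map] at h2
  exact ⟨h1, h2⟩

private theorem push_zero (φ : V ↪ V') : push φ (0 : Finset V → ℝ) = 0 := by
  funext σ'
  by_contra hne
  obtain ⟨σ, h1, _⟩ := push_ne φ _ σ' hne
  exact h1 rfl

/-- preimages -/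
theorem Ex.comap {Δ : Finset V' → Prop} {j : ℕ} (h : Ex Δ j) (φ : V ↪ V')
    (hφ : ∀ σ', Δ σ' → ∃ σ : Finset V, σ' = σ.map φ) : Ex (fun σ => Δ (σ.map φ)) j := by
  intro ν hν z hz hz0
  obtain ⟨ν', hν', rfl⟩ := exists_ext φ ν hν
  obtain ⟨y, hy, hyb⟩ := h ν' hν' (push φ z) (ch_push hz) (by rw [bd_push, hz0, push_zero])
  refine ⟨fun σ => y (σ.map φ), ch_pull φ hy, ?_⟩
  funext ρ
  rw [← bd_pull φ ν' y (fun σ' hσ' => hφ σ' (hy σ' hσ').1), hyb, push_map]

theorem sph_comap {Δ : Finset V' → Prop} {m : ℕ} (h : Sph Δ m) (φ : V ↪ V')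
    (hφ : ∀ σ', Δ σ' → ∃ σ : Finset V, σ' = σ.map φ) : Sph (fun σ => Δ (σ.map φ)) m := by
  refine ⟨fun σ τ hσ hs => h.down _ _ hσ (map_subset_map.2 hs), fun σ hσ => ?_, ?_, ?_⟩
  · have := h.dim _ hσ
    rwa [card_map] at this
  · intro ν hν j hj z hz hz0
    exact Ex.comap (Δ := Δ) (j := j) (fun ν hν z hz hz0 => h.low ν hν j hj z hz hz0) φ hφ ν hν z hz hz0
  · intro ν hν
    obtain ⟨ν', hν', rfl⟩ := exists_ext φ ν hν
    obtain ⟨o, ho, ho0, hne, hu⟩ := h.top ν' hν'
    have hoC : Ch Δ m o := ho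
    have hsup : ∀ σ', o σ' ≠ 0 → ∃ σ : Finset V, σ' = σ.map φ := fun σ' hσ' => hφ σ' (ho σ' hσ').1
    refine ⟨fun σ => o (σ.map φ), ch_pull φ hoC, ?_, ?_, ?_⟩
    · funext ρ
      rw [← bd_pull φ ν' o hsup, ho0]
      rfl
    · intro h0
      apply hne
      rw [← push_pull φ o hsup, h0, push_zero]
    · intro z hz hz0
      obtain ⟨r, hr⟩ := hu (push φ z) (ch_push hz) (by rw [bd_push, hz0, push_zero])
      refine ⟨r, ?_⟩
      funext σ
      rw [← push_map φ z σ, hr]
      rfl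

/-- images -/
theorem Ex.map {Δ : Finset V → Prop} {j : ℕ} (h : Ex Δ j) (φ : V ↪ V') :
    Ex (fun σ' => ∃ σ, Δ σ ∧ σ' = σ.map φ) j := by
  intro ν' hν' z' hz hz0
  have hsup : ∀ σ', z' σ' ≠ 0 → ∃ σ : Finset V, σ' = σ.map φ := fun σ' hσ' =>
    (hz σ' hσ').1.imp fun _ h => h.2
  obtain ⟨y, hy, hyb⟩ := h (fun x => ν' (φ x)) (hν'.comp φ.injective) (fun σ => z' (σ.map φ)) (by
      intro σ hσ
      obtain ⟨⟨τ, h1, h2⟩, h3⟩ := hz _ hσ
      rw [Finset.map_injective φ h2, ← Finset.card_map φ, ← h2]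
      exact ⟨h1, h3⟩) (by
      funext ρ
      rw [← bd_pull φ ν' z' hsup, hz0]
      rfl)
  refine ⟨push φ y, ?_, ?_⟩
  · intro σ' hσ'
    obtain ⟨σ, h1, rfl⟩ := push_ne φ y σ' hσ'
    exact ⟨⟨σ, (hy σ h1).1, rfl⟩, by rw [Finset.card_map]; exact (hy σ h1).2⟩
  · rw [bd_push, hyb, push_pull φ z' hsup]

/-! ### small complexes -/

variable {Δ : Finset V → Prop}

theorem ch_point {w : V} (hw : Δ {w}) : Ch Δ 1 (Pi.single {w} 1 : Finset V → ℝ) := by
  intro σ hσ
  by_cases h : σ = {w}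
  · subst h
    exact ⟨hw, card_singleton w⟩
  · exact absurd (Pi.single_eq_of_ne h _) hσ

/-- the values of a cycle in degree one have sum zero -/
theorem sum_pts (ν : V → ℕ) {z : Finset V → ℝ} (hz0 : bd ν z = 0) : ∑ v, z {v} = 0 := by
  have h1 := congrFun hz0 ∅
  change ∑ v ∈ (∅ : Finset V)ᶜ, sgn ν v ∅ • z (insert v ∅) = 0 at h1
  rw [compl_empty] at h1
  rw [← h1]
  refine Finset.sum_congr rfl fun v _ => ?_
  unfold sgn
  simp

/-- a complex with the homology of two points -/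
theorem sph_one_pts (h : Sph Δ 1) : ∃ p q, p ≠ q ∧ ∀ w, Δ {w} ↔ w = p ∨ w = q := by
  classical
  obtain ⟨ν, hν⟩ : ∃ ν : V → ℕ, Function.Injective ν :=
    ⟨fun v => (Fintype.equivFin V v : ℕ), fun u v huv => (Fintype.equivFin V).injective (Fin.ext huv)⟩
  obtain ⟨o, ho, ho0, hne, hu⟩ := h.top ν hν
  obtain ⟨σ, hσ⟩ : ∃ σ, o σ ≠ 0 := by
    by_contra hc
    push Not at hc
    exact hne (funext hc)
  obtain ⟨h1, h2⟩ := ho σ hσ
  obtain ⟨p, rfl⟩ := card_eq_one.1 h2
  have hsum := sum_pts ν ho0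
  obtain ⟨q, hq, hq0⟩ : ∃ q, q ≠ p ∧ o {q} ≠ 0 := by
    by_contra hc
    push Not at hc
    rw [Finset.sum_eq_single p (fun q _ hq => hc q hq) (fun h => absurd (mem_univ p) h)] at hsum
    exact hσ hsum
  have hq1 := (ho _ hq0).1
  refine ⟨p, q, hq.symm, fun w => ⟨fun hw => ?_, ?_⟩⟩
  · by_contra hc
    push Not at hc
    have hc1 : Ch Δ 1 (Pi.single {p} 1 - Pi.single {w} 1 : Finset V → ℝ) := (ch_point h1).sub (ch_point hw)
    obtain ⟨r, hr⟩ := hu _ hc1 (by
      rw [map_sub, bd_point, bd_point, sub_self])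
    have e1 := congrFun hr {q}
    rw [Pi.sub_apply, Pi.single_eq_of_ne (fun h => hq (singleton_injective h)),
      Pi.single_eq_of_ne (fun h => hc.2 (singleton_injective h).symm), sub_self, Pi.smul_apply,
      smul_eq_mul] at e1
    have hr0 : r = 0 := by
      rcases mul_eq_zero.1 e1.symm with h | h
      · exact h
      · exact absurd h hq0
    have e2 := congrFun hr {p}
    rw [hr0, zero_smul, Pi.sub_apply, Pi.single_eq_same,
      Pi.single_eq_of_ne (fun h => hc.1 (singleton_injective h).symm), sub_zero] at e2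
    exact one_ne_zero e2
  · rintro (rfl | rfl)
    · exact h1
    · exact hq1

/-- an acyclic complex of dimension zero -/
theorem ex_pt (h0 : Ex Δ 0) (h1 : Ex Δ 1) (he : Δ ∅) (hd : ∀ σ, Δ σ → σ.card ≤ 1) :
    ∃ p, ∀ w, Δ {w} ↔ w = p := by
  classical
  obtain ⟨ν, hν⟩ : ∃ ν : V → ℕ, Function.Injective ν :=
    ⟨fun v => (Fintype.equivFin V v : ℕ), fun u v huv => (Fintype.equivFin V).injective (Fin.ext huv)⟩
  obtain ⟨y, hy, hyb⟩ := h0 ν hν (Pi.single ∅ 1) (by
    intro σ hσ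
    by_cases h : σ = ∅
    · subst h
      exact ⟨he, rfl⟩
    · exact absurd (Pi.single_eq_of_ne h _) hσ) (by
    funext ρ
    refine Finset.sum_eq_zero fun v _ => ?_
    rw [Pi.single_eq_of_ne (insert_ne_empty _ _), smul_zero])
  obtain ⟨σ, hσ⟩ : ∃ σ, y σ ≠ 0 := by
    by_contra hc
    push Not at hc
    have h2 : y = 0 := funext hc
    rw [h2, map_zero] at hyb
    have h3 := congrFun hyb ∅
    rw [Pi.single_eq_same] at h3
    exact one_ne_zero h3.symm
  obtain ⟨h2, h3⟩ := hy σ hσ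
  obtain ⟨p, rfl⟩ := card_eq_one.1 h3
  refine ⟨p, fun w => ⟨fun hw => ?_, fun h => h ▸ h2⟩⟩
  by_contra hc
  obtain ⟨u, hu, hub⟩ := h1 ν hν (Pi.single {p} 1 - Pi.single {w} 1) ((ch_point h2).sub (ch_point hw)) (by
    rw [map_sub, bd_point, bd_point, sub_self])
  have h4 : u = 0 := by
    funext τ
    by_contra h5
    obtain ⟨h6, h7⟩ := hu τ h5
    have := hd τ h6
    omega
  rw [h4, map_zero] at hub
  have e2 := congrFun hub {p}
  rw [Pi.sub_apply, Pi.single_eq_same,
    Pi.single_eq_of_ne (fun h => hc (singleton_injective h).symm), sub_zero] at e2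
  exact one_ne_zero e2.symm

/-- connectedness -/
theorem conn_of_ex (h : Ex Δ 1) {x y : V} (hx : Δ {x}) (hy : Δ {y}) :
    Relation.ReflTransGen (fun a b => Δ {a, b}) x y := by
  classical
  obtain ⟨ν, hν⟩ : ∃ ν : V → ℕ, Function.Injective ν :=
    ⟨fun v => (Fintype.equivFin V v : ℕ), fun u v huv => (Fintype.equivFin V).injective (Fin.ext huv)⟩
  by_contra hn
  obtain ⟨S, hS⟩ : ∃ S : Finset V, ∀ a, a ∈ S ↔ Relation.ReflTransGen (fun a b => Δ {a, b}) x a :=
    ⟨univ.filter fun a => Relation.ReflTransGen (fun a b => Δ {a, b}) x a, fun a => by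
      rw [mem_filter]; exact ⟨fun h => h.2, fun h => ⟨mem_univ _, h⟩⟩⟩
  obtain ⟨u, hu, hub⟩ := h ν hν (Pi.single {x} 1 - Pi.single {y} 1) ((ch_point hx).sub (ch_point hy)) (by
    rw [map_sub, bd_point, bd_point, sub_self])
  have hxS : x ∈ S := (hS x).2 Relation.ReflTransGen.refl
  have hyS : y ∉ S := fun h => hn ((hS y).1 h)
  have h1 : ∑ a ∈ S, bd ν u {a} = 1 := by
    rw [hub, Finset.sum_eq_single x]
    · rw [Pi.sub_apply, Pi.single_eq_same, Pi.single_eq_of_ne, sub_zero]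
      intro h
      have h5 : x = y := singleton_injective h
      exact hyS (h5 ▸ hxS)
    · intro a ha hax
      rw [Pi.sub_apply, Pi.single_eq_of_ne (fun h => hax (singleton_injective h)),
        Pi.single_eq_of_ne (fun h => hyS ((singleton_injective h : a = y) ▸ ha)), sub_self]
    · exact fun h => absurd hxS h
  have h2 : ∀ a, a ∈ S → bd ν u {a} = ∑ b ∈ S, if a = b then 0 else sgn ν b {a} * u {b, a} := by
    intro a ha
    change ∑ b ∈ ({a} : Finset V)ᶜ, sgn ν b {a} • u (insert b {a}) = _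
    have h3 : ∀ b, (if a = b then 0 else sgn ν b {a} * u {b, a}) ≠ 0 → b ∈ S ∧ b ∈ ({a} : Finset V)ᶜ := by
      intro b hb
      by_cases hab : a = b
      · exact absurd (if_pos hab) hb
      · rw [if_neg hab] at hb
        have h4 := (hu _ (right_ne_zero_of_mul hb)).1
        refine ⟨(hS b).2 (((hS a).1 ha).tail (by rw [pair_comm]; exact h4)), ?_⟩
        rw [mem_compl, mem_singleton]
        exact fun h => hab h.symm
    have h4 : ∑ b ∈ ({a} : Finset V)ᶜ, sgn ν b {a} • u (insert b {a}) =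
        ∑ b, if a = b then 0 else sgn ν b {a} * u {b, a} := by
      rw [← Finset.sum_subset (subset_univ ({a} : Finset V)ᶜ)]
      · refine Finset.sum_congr rfl fun b hb => ?_
        rw [mem_compl, mem_singleton] at hb
        rw [if_neg (fun h => hb h.symm)]
        rfl
      · intro b _ hb
        by_contra h5
        exact hb (h3 b h5).2
    rw [h4, ← Finset.sum_subset (subset_univ S)]
    intro b _ hb
    by_contra h5
    exact hb (h3 b h5).1
  rw [Finset.sum_congr rfl h2] at h1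
  have h3 : ∀ a b, (if a = b then 0 else sgn ν b {a} * u {b, a}) =
      - (if b = a then 0 else sgn ν a {b} * u {a, b}) := by
    intro a b
    by_cases hab : a = b
    · rw [if_pos hab, if_pos hab.symm, neg_zero]
    · rw [if_neg hab, if_neg fun h => hab h.symm, pair_comm b a]
      have h4 : sgn ν b {a} = - sgn ν a {b} := by
        unfold sgn
        rw [filter_singleton, filter_singleton]
        rcases lt_trichotomy (ν a) (ν b) with h | h | h
        · rw [if_pos h, if_neg (by omega)]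
          simp
        · exact absurd (hν h) hab
        · rw [if_neg (by omega), if_pos h]
          simp
      rw [h4]
      ring
  have h4 : ∑ a ∈ S, ∑ b ∈ S, (if a = b then 0 else sgn ν b {a} * u {b, a}) =
      - ∑ a ∈ S, ∑ b ∈ S, (if a = b then 0 else sgn ν b {a} * u {b, a}) := by
    conv_lhs => rw [Finset.sum_comm]
    rw [← Finset.sum_neg_distrib]
    refine Finset.sum_congr rfl fun b _ => ?_
    rw [← Finset.sum_neg_distrib]
    exact Finset.sum_congr rfl fun a _ => h3 a b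
  linarith

end Pool.Agent.H19.BL
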