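import Pool.Agent.H19.BL.Def
import Pool.Agent.H19.BL.Map
import Pool.Agent.H19.BL.Crit
import Pool.Agent.H85.Fold4.Nice

/-!
# Project BL: homology balls and their links
-/

set_option autoImplicit false
set_option linter.unusedSectionVars false

open Finset

namespace Pool.Agent.H19.BL

open Pool.Agent.H85.Fold Pool.Agent.H85.Fold3 Pool.Agent.H85.Fold4

variable {V : Type} [DecidableEq V] [Fintype V] {G : SimpleGraph V} {B : Finset V → Prop} {n : ℕ}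

/-- the link of `ρ` in the complex `P` -/
def lkP (P : Finset V → Prop) (ρ σ : Finset V) : Prop := Disjoint σ ρ ∧ P (σ ∪ ρ)

/-- homology balls and spheres, internal version -/
structure Disc (G : SimpleGraph V) (n : ℕ) (B : Finset V → Prop) : Prop where
  sub : ∀ σ τ, B σ → τ ⊆ σ → B τ
  cl : ∀ σ, B σ → Cl G σ
  dim : ∀ σ, Cl G σ → σ.card ≤ n
  sph : ∀ ρ, Cl G ρ → ¬ B ρ → Sph (lkP (Cl G) ρ) (n - ρ.card)
  ball : ∀ ρ, B ρ → ∀ j, Ex (lkP (Cl G) ρ) j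
  bdim : ∀ ρ, B ρ → ρ.card + 1 ≤ n
  bd : ∀ ρ, B ρ → Sph (lkP B ρ) (n - 1 - ρ.card)

theorem lkP_down {P : Finset V → Prop} (hP : ∀ σ τ, P σ → τ ⊆ σ → P τ) {ρ σ τ : Finset V}
    (h : lkP P ρ σ) (hs : τ ⊆ σ) : lkP P ρ τ :=
  ⟨Finset.disjoint_of_subset_left hs h.1,
    hP _ _ h.2 (Finset.union_subset_union hs (Finset.Subset.refl ρ))⟩

theorem lkP_card {P : Finset V → Prop} {m : ℕ} (hP : ∀ σ, P σ → σ.card ≤ m) {ρ σ : Finset V}
    (h : lkP P ρ σ) : σ.card + ρ.card ≤ m := by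
  have h1 := hP _ h.2
  rwa [card_union_of_disjoint h.1] at h1

theorem ch_iff {ρ : Finset V} {j : ℕ} {z : Finset V → ℝ} : Ch (lkP (Cl G) ρ) j z ↔ LinkCh G ρ j z := by
  unfold Ch LinkCh lkP
  simp only [cl_iff, and_assoc]

theorem chB_iff {ρ : Finset V} {j : ℕ} {z : Finset V → ℝ} : Ch (lkP B ρ) j z ↔ BdCh B ρ j z := by
  unfold Ch BdCh lkP
  simp only [and_assoc]

theorem HomologyBall.disc (h : HomologyBall G n B) : Disc G n B := by
  have hsub : ∀ σ τ, B σ → τ ⊆ σ → B τ := fun σ τ hσ hs => (h.sub σ hσ).2 τ hs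
  have hcl : ∀ σ, B σ → Cl G σ := fun σ hσ => cl_iff.2 (h.sub σ hσ).1
  have hdim : ∀ σ, Cl G σ → σ.card ≤ n := fun σ hσ => h.dim σ (cl_iff.1 hσ)
  have hzero : ∀ ρ, ∀ j, n < j + ρ.card → ∀ z, Ch (lkP (Cl G) ρ) j z → z = 0 := by
    intro ρ j hj z hz
    funext σ
    by_contra h1
    obtain ⟨h2, h3⟩ := hz σ h1
    have := lkP_card hdim h2
    omega
  have hbdim : ∀ ρ, B ρ → ρ.card + 1 ≤ n := by
    intro ρ hρ
    have h1 := hdim ρ (hcl ρ hρ)
    by_contra h2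
    have h3 : 0 + ρ.card = n := by omega
    obtain ⟨ν, hν⟩ : ∃ ν : V → ℕ, Function.Injective ν :=
      ⟨fun v => (Fintype.equivFin V v : ℕ), fun u v huv => (Fintype.equivFin V).injective (Fin.ext huv)⟩
    have h4 := h.ball ν hν ρ hρ 0 h3 (Pi.single ∅ 1) (by
      intro σ hσ
      by_cases h5 : σ = ∅
      · subst h5
        refine ⟨disjoint_empty_left _, ?_, rfl⟩
        rw [empty_union]
        exact (h.sub ρ hρ).1
      · exact absurd (Pi.single_eq_of_ne h5 _) hσ) (by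
      funext ρ
      refine Finset.sum_eq_zero fun v _ => ?_
      rw [Pi.single_eq_of_ne (insert_ne_empty _ _), mul_zero])
    have h5 := congrFun h4 ∅
    rw [Pi.single_eq_same] at h5
    exact one_ne_zero h5
  refine ⟨hsub, hcl, hdim, ?_, ?_, hbdim, ?_⟩
  · intro ρ hρ hB
    have hle := hdim ρ hρ
    refine ⟨fun σ τ hσ hs => lkP_down (fun _ _ => cl_sub) hσ hs, fun σ hσ => ?_, ?_, ?_⟩
    · have := lkP_card hdim hσ
      omega
    · intro ν hν j hj z hz hz0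
      obtain ⟨y, hy, hyb⟩ := h.low ν hν ρ (cl_iff.1 hρ) j (by omega) z (ch_iff.1 hz) hz0
      exact ⟨y, ch_iff.2 hy, hyb⟩
    · intro ν hν
      obtain ⟨o, ho, ho0, hne, hu⟩ := h.top ν hν ρ (cl_iff.1 hρ) hB (n - ρ.card) (by omega)
      exact ⟨o, ch_iff.2 ho, ho0, hne, fun z hz hz0 => hu z (ch_iff.1 hz) hz0⟩
  · intro ρ hρ j ν hν z hz hz0
    rcases lt_trichotomy (j + ρ.card) n with h1 | h1 | h1
    · obtain ⟨y, hy, hyb⟩ := h.low ν hν ρ (h.sub ρ hρ).1 j h1 z (ch_iff.1 hz) hz0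
      exact ⟨y, ch_iff.2 hy, hyb⟩
    · refine ⟨0, ch_zero _, ?_⟩
      rw [map_zero, h.ball ν hν ρ hρ j h1 z (ch_iff.1 hz) hz0]
    · refine ⟨0, ch_zero _, ?_⟩
      rw [map_zero, hzero ρ j h1 z hz]
  · intro ρ hρ
    have hle := hbdim ρ hρ
    refine ⟨fun σ τ hσ hs => lkP_down hsub hσ hs, fun σ hσ => ?_, ?_, ?_⟩
    · have h1 := hbdim _ hσ.2
      rw [card_union_of_disjoint hσ.1] at h1
      omega
    · intro ν hν j hj z hz hz0
      obtain ⟨y, hy, hyb⟩ := h.bdLow ν hν ρ hρ j (by omega) z (chB_iff.1 hz) hz0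
      exact ⟨y, chB_iff.2 hy, hyb⟩
    · intro ν hν
      obtain ⟨o, ho, ho0, hne, hu⟩ := h.bdTop ν hν ρ hρ (n - 1 - ρ.card) (by omega)
      exact ⟨o, chB_iff.2 ho, ho0, hne, fun z hz hz0 => hu z (chB_iff.1 hz) hz0⟩

/-- the embedding of the subtype -/
def emb (U : Finset V) : {v // v ∈ U} ↪ V := ⟨Subtype.val, Subtype.val_injective⟩

theorem mem_emb {U : Finset V} {τ : Finset {v // v ∈ U}} {v : V} :
    v ∈ τ.map (emb U) ↔ ∃ h : v ∈ U, (⟨v, h⟩ : {v // v ∈ U}) ∈ τ := by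
  rw [mem_map]
  constructor
  · rintro ⟨w, hw, rfl⟩
    exact ⟨w.2, hw⟩
  · rintro ⟨h, hτ⟩
    exact ⟨⟨v, h⟩, hτ, rfl⟩

theorem ex_emb {U σ : Finset V} (h : σ ⊆ U) : ∃ σ' : Finset {v // v ∈ U}, σ = σ'.map (emb U) := by
  refine ⟨univ.filter fun w => w.1 ∈ σ, ?_⟩
  ext v
  rw [mem_emb]
  constructor
  · intro hv
    exact ⟨h hv, mem_filter.2 ⟨mem_univ _, hv⟩⟩
  · rintro ⟨h1, h2⟩
    exact (mem_filter.1 h2).2

/-- **The link of a simplex in a homology ball is a homology ball or a homology sphere.** -/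
theorem Disc.link (h : Disc G n B) {τ U : Finset V} (hτ : Cl G τ)
    (hU : ∀ v, v ∈ U ↔ v ∉ τ ∧ ∀ u ∈ τ, G.Adj u v) :
    Disc (G.comap (Subtype.val : {v // v ∈ U} → V)) (n - τ.card) (fun σ => B (σ.map (emb U) ∪ τ)) := by
  have hτn := h.dim τ hτ
  have hsubU : ∀ σ : Finset {v // v ∈ U}, σ.map (emb U) ⊆ U := fun σ v hv => (mem_emb.1 hv).1
  have hcl : ∀ σ : Finset {v // v ∈ U}, Cl (G.comap (Subtype.val : {v // v ∈ U} → V)) σ ↔
      Cl G (σ.map (emb U) ∪ τ) := by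
    intro σ
    constructor
    · intro h u hu v hv huv
      rcases mem_union.1 hu with hu | hu <;> rcases mem_union.1 hv with hv | hv
      · obtain ⟨h1, h2⟩ := mem_emb.1 hu
        obtain ⟨h3, h4⟩ := mem_emb.1 hv
        exact h ⟨u, h1⟩ h2 ⟨v, h3⟩ h4 fun h5 => huv (congrArg Subtype.val h5)
      · obtain ⟨h1, h2⟩ := mem_emb.1 hu
        exact (((hU u).1 h1).2 v hv).symm
      · obtain ⟨h1, h2⟩ := mem_emb.1 hv
        exact ((hU v).1 h1).2 u hu
      · exact hτ u hu v hv huv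
    · intro h u hu v hv huv
      exact h u.1 (mem_union_left _ (mem_emb.2 ⟨u.2, hu⟩)) v.1
        (mem_union_left _ (mem_emb.2 ⟨v.2, hv⟩)) fun h5 => huv (Subtype.ext h5)
  have hdisj : ∀ σ : Finset {v // v ∈ U}, Disjoint (σ.map (emb U)) τ := fun σ =>
    Finset.disjoint_left.2 fun v hv => ((hU v).1 (hsubU σ hv)).1
  have hcard : ∀ ρ : Finset {v // v ∈ U}, (ρ.map (emb U) ∪ τ).card = ρ.card + τ.card :=
    fun ρ => by rw [card_union_of_disjoint (hdisj ρ), card_map]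
  have hlk : ∀ (P : Finset V → Prop) (ρ σ : Finset {v // v ∈ U}),
      lkP P (ρ.map (emb U) ∪ τ) (σ.map (emb U)) ↔ lkP (fun σ => P (σ.map (emb U) ∪ τ)) ρ σ := by
    intro P ρ σ
    change _ ↔ Disjoint σ ρ ∧ P ((σ ∪ ρ).map (emb U) ∪ τ)
    unfold lkP
    rw [map_union, union_assoc]
    refine and_congr ?_ Iff.rfl
    rw [disjoint_union_right, disjoint_map]
    exact ⟨fun h => h.1, fun h => ⟨h, hdisj σ⟩⟩
  have hclf : (fun σ : Finset {v // v ∈ U} => Cl G (σ.map (emb U) ∪ τ)) =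
      Cl (G.comap (Subtype.val : {v // v ∈ U} → V)) := funext fun σ => propext (hcl σ).symm
  have himg : ∀ (ρ : Finset {v // v ∈ U}) (σ' : Finset V), lkP (Cl G) (ρ.map (emb U) ∪ τ) σ' →
      ∃ σ : Finset {v // v ∈ U}, σ' = σ.map (emb U) := by
    rintro ρ σ' ⟨h1, h2⟩
    refine ex_emb fun v hv => (hU v).2 ⟨fun h3 => ?_, fun u hu => ?_⟩
    · exact Finset.disjoint_left.1 h1 hv (mem_union_right _ h3)
    · refine h2 u (mem_union_right _ (mem_union_right _ hu)) v (mem_union_left _ hv) fun h3 => ?_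
      exact Finset.disjoint_left.1 h1 hv (mem_union_right _ (h3 ▸ hu))
  refine ⟨?_, ?_, ?_, ?_, ?_, ?_, ?_⟩
  · intro σ ρ hσ hs
    exact h.sub _ _ hσ (union_subset_union (map_subset_map.2 hs) (Finset.Subset.refl _))
  · intro σ hσ
    exact (hcl σ).2 (h.cl _ hσ)
  · intro σ hσ
    have h1 := h.dim _ ((hcl σ).1 hσ)
    rw [hcard] at h1
    omega
  · intro ρ hρ hB
    have h1 := sph_comap (h.sph _ ((hcl ρ).1 hρ) hB) (emb U) (himg ρ)
    rw [hcard] at h1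
    have h2 : n - (ρ.card + τ.card) = n - τ.card - ρ.card := by omega
    rw [h2] at h1
    refine sph_congr h1 fun σ => ?_
    rw [hlk, hclf]
  · intro ρ hρ j
    refine Ex.congr ((h.ball _ hρ j).comap (emb U) (himg ρ)) fun σ => ?_
    rw [hlk, hclf]
  · intro ρ hρ
    have h1 := h.bdim _ hρ
    rw [hcard] at h1
    omega
  · intro ρ hρ
    have h1 := sph_comap (h.bd _ hρ) (emb U) (fun σ' hσ' => himg ρ σ' ⟨hσ'.1, h.cl _ hσ'.2⟩)
    rw [hcard] at h1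
    have h2 : n - 1 - (ρ.card + τ.card) = n - τ.card - 1 - ρ.card := by omega
    rw [h2] at h1
    exact sph_congr h1 fun σ => hlk B ρ σ

/-- no boundary: a sphere -/
theorem Disc.sphere (h : Disc G n B) (hB : ¬ B ∅) : IsHomologySphere G n := by
  rw [isHomologySphere_iff]
  intro ρ hρ
  exact ⟨h.dim ρ hρ, h.sph ρ hρ fun h1 => hB (h.sub _ _ h1 (empty_subset ρ))⟩

end Pool.Agent.H19.BL
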