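import Pool.Agent.H19.BL.Sphere
import Pool.Agent.H19.VX.Good

/-!
# Project BL: full subcomplexes of homology balls
-/

set_option autoImplicit false

open Finset

namespace Pool.Agent.H19.BL

open Pool.Agent.H19.VX Pool.Agent.H85.Fold4

/-- Full subcomplexes of homology balls and spheres of dimension `n - 1`: the links of the cliques with `n - 3`
vertices are full subcomplexes of homology 2-spheres. -/
theorem linksGood_of_ball {V W : Type} [DecidableEq W] [Fintype W] {L : SimpleGraph V}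
    {K : SimpleGraph W} {B : Finset W → Prop} {n : ℕ} (hn : 3 ≤ n) (hK : HomologyBall K n B)
    (e : L ↪g K) : LinksGood L (n - 3) 3 := by
  classical
  intro σ hσ hm
  have hcl : Pool.Agent.H85.Fold.Cl K (σ.map e.toEmbedding) := by
    intro a ha b hb hab
    obtain ⟨a', ha', rfl⟩ := mem_map.1 ha
    obtain ⟨b', hb', rfl⟩ := mem_map.1 hb
    exact e.map_adj_iff.2 (hσ (mem_coe.2 ha') (mem_coe.2 hb') fun h => hab (congrArg _ h))
  let U : Finset W := univ.filter fun v => v ∉ σ.map e.toEmbedding ∧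
    ∀ u ∈ σ.map e.toEmbedding, K.Adj u v
  have hU : ∀ v, v ∈ U ↔ v ∉ σ.map e.toEmbedding ∧ ∀ u ∈ σ.map e.toEmbedding, K.Adj u v :=
    fun v => ⟨fun h => (mem_filter.1 h).2, fun h => mem_filter.2 ⟨mem_univ _, h⟩⟩
  have h1 := hK.disc.link hcl hU
  have h2 : n - (σ.map e.toEmbedding).card = 3 := by
    rw [card_map, hm]
    omega
  rw [h2] at h1
  obtain ⟨W', i1, i2, K', hK', ⟨e'⟩⟩ := h1.embed
  let e'' : L.induce (cn L σ) ↪g K.comap (Subtype.val : {v // v ∈ U} → W) :=
    ⟨⟨fun x => ⟨e x.1, by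
        rw [hU]
        constructor
        · intro h
          obtain ⟨y, hy, hyx⟩ := mem_map.1 h
          have h3 : y = x.1 := e.injective hyx
          exact (x.2 y hy).ne h3
        · intro u hu
          obtain ⟨y, hy, rfl⟩ := mem_map.1 hu
          exact e.map_adj_iff.2 (x.2 y hy)⟩, fun x y hxy => by
        have h3 := congrArg Subtype.val hxy
        exact Subtype.ext (e.injective h3)⟩, fun {x y} => e.map_adj_iff⟩
  exact ⟨W', i1, i2, K', Or.inl ⟨⟨1, rfl⟩, Pool.Agent.H67.LF.hs_of hK', Or.inl rfl⟩, ⟨e''.trans e'⟩⟩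

end Pool.Agent.H19.BL
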