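import Pool.Agent.H19.BL.Disc

/-!
# Project BL: a homology 2-ball is a full subcomplex of a homology 2-sphere

The sphere is the mapping cylinder of the barycentric subdivision of the boundary, with a cone on the
subdivision: the new vertices are the simplices of the boundary (also `∅`).
-/

set_option autoImplicit false
set_option linter.unusedSectionVars false

open Finset

namespace Pool.Agent.H19.BL

open Pool.Agent.H85.Fold Pool.Agent.H85.Fold3 Pool.Agent.H85.Fold4

variable {V : Type}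

/-- the graph -/
def kg (G : SimpleGraph V) (B : Finset V → Prop) : SimpleGraph (V ⊕ {τ : Finset V // B τ}) where
  Adj x y := match x, y with
    | .inl a, .inl b => G.Adj a b
    | .inl a, .inr τ => a ∈ τ.1
    | .inr τ, .inl a => a ∈ τ.1
    | .inr σ, .inr τ => σ.1 ⊂ τ.1 ∨ τ.1 ⊂ σ.1
  symm := ⟨fun x y h => by
    rcases x with a | a <;> rcases y with b | b
    · exact SimpleGraph.Adj.symm (G := G) h
    · exact h
    · exact h
    · exact h.symm⟩
  loopless := ⟨fun x h => by
    rcases x with a | a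
    · exact G.loopless.irrefl a h
    · rcases h with h | h <;> exact (ssubset_irrefl _ h)⟩

/-- the property of `T2` for one edge -/
def Q2 (K : SimpleGraph V) (x y : V) : Prop :=
  ∃ p q, p ≠ q ∧ ¬ K.Adj p q ∧ ∀ w, (K.Adj x w ∧ K.Adj y w) ↔ w = p ∨ w = q

theorem Q2.symm {K : SimpleGraph V} {x y : V} (h : Q2 K x y) : Q2 K y x := by
  obtain ⟨p, q, h1, h2, h3⟩ := h
  exact ⟨p, q, h1, h2, fun w => by rw [and_comm, h3]⟩

variable [DecidableEq V] [Fintype V] {G : SimpleGraph V} {B : Finset V → Prop}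

theorem Disc.one (h : Disc G 3 B) {v : V} (hv : B {v}) :
    ∃ p q, p ≠ q ∧ ∀ w, (w ≠ v ∧ B {v, w}) ↔ w = p ∨ w = q := by
  have h1 := h.bd {v} hv
  rw [card_singleton] at h1
  obtain ⟨p, q, hpq, h2⟩ := sph_one_pts h1
  refine ⟨p, q, hpq, fun w => ?_⟩
  rw [← h2]
  unfold lkP
  rw [disjoint_singleton, union_comm, ← insert_eq]

theorem Disc.two (h : Disc G 3 B) {u v : V} (huv : G.Adj u v) (hB : ¬ B {u, v}) :
    ∃ p q, p ≠ q ∧ ¬ G.Adj p q ∧ ∀ w, (G.Adj u w ∧ G.Adj v w) ↔ w = p ∨ w = q := by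
  have h1 := h.sph {u, v} (cl_pair huv) hB
  rw [card_pair huv.ne] at h1
  obtain ⟨p, q, hpq, h2⟩ := sph_one_pts h1
  have h3 : ∀ w, (G.Adj u w ∧ G.Adj v w) ↔ w = p ∨ w = q := by
    intro w
    rw [← h2]
    unfold lkP
    rw [link_iff_fl (cl_pair huv)]
    unfold Fl
    rw [singleton_subset_iff, mem_nb_two]
    exact ⟨fun h => ⟨h, cl_single w⟩, fun h => h.1⟩
  refine ⟨p, q, hpq, fun hadj => ?_, h3⟩
  have hp := (h3 p).2 (Or.inl rfl)
  have hq := (h3 q).2 (Or.inr rfl)
  have h4 : lkP (Cl G) {u, v} {p, q} := by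
    unfold lkP
    rw [link_iff_fl (cl_pair huv)]
    refine ⟨fun w hw => ?_, cl_pair hadj⟩
    rw [mem_insert, mem_singleton] at hw
    rw [mem_nb_two]
    rcases hw with rfl | rfl
    · exact hp
    · exact hq
  have h5 := lkP_card h.dim h4
  rw [card_pair hpq, card_pair huv.ne] at h5
  omega

theorem Disc.two' (h : Disc G 3 B) {u v : V} (huv : u ≠ v) (hB : B {u, v}) :
    ∃ p, ∀ w, (G.Adj u w ∧ G.Adj v w) ↔ w = p := by
  have hadj : G.Adj u v := h.cl _ hB u (by simp) v (by simp) huv
  obtain ⟨p, h2⟩ := ex_pt (h.ball _ hB 0) (h.ball _ hB 1) ⟨disjoint_empty_left _, by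
    rw [empty_union]; exact cl_pair hadj⟩ fun σ hσ => by
    have h5 := lkP_card h.dim hσ
    rw [card_pair huv] at h5
    omega
  refine ⟨p, fun w => ?_⟩
  rw [← h2]
  unfold lkP
  rw [link_iff_fl (cl_pair hadj)]
  unfold Fl
  rw [singleton_subset_iff, mem_nb_two]
  exact ⟨fun h => ⟨h, cl_single w⟩, fun h => h.1⟩

theorem Disc.card_le (h : Disc G 3 B) {τ : Finset V} (hτ : B τ) : τ.card ≤ 2 := by
  have := h.bdim τ hτ
  omega

theorem Disc.cases (h : Disc G 3 B) {τ : Finset V} (hτ : B τ) :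
    τ = ∅ ∨ (∃ v, τ = {v}) ∨ ∃ v w, v ≠ w ∧ τ = {v, w} := by
  have h1 := h.card_le hτ
  have h2 : τ.card = 0 ∨ τ.card = 1 ∨ τ.card = 2 := by omega
  rcases h2 with h2 | h2 | h2
  · exact Or.inl (card_eq_zero.1 h2)
  · exact Or.inr (Or.inl (card_eq_one.1 h2))
  · exact Or.inr (Or.inr (card_eq_two.1 h2))

theorem cmp_zero {ρ : Finset V} : (∅ ⊂ ρ ∨ ρ ⊂ ∅) ↔ ρ ≠ ∅ := by
  constructor
  · rintro (h | h)
    · exact (nonempty_iff_ne_empty.1 (empty_ssubset.1 h))
    · exact absurd h (not_ssubset_empty ρ)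
  · intro h
    exact Or.inl (empty_ssubset.2 (nonempty_iff_ne_empty.2 h))

theorem Disc.cmp_one (h : Disc G 3 B) {v : V} {ρ : Finset V} (hρ : B ρ) :
    (({v} : Finset V) ⊂ ρ ∨ ρ ⊂ {v}) ↔ ρ = ∅ ∨ ∃ w, w ≠ v ∧ ρ = {v, w} := by
  constructor
  · rintro (h1 | h1)
    · right
      have h2 := card_lt_card h1
      rw [card_singleton] at h2
      rcases h.cases hρ with rfl | ⟨a, rfl⟩ | ⟨a, b, hab, rfl⟩
      · rw [card_empty] at h2
        omega
      · rw [card_singleton] at h2
        omega
      · have h3 : v ∈ ({a, b} : Finset V) := h1.1 (mem_singleton_self v)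
        rw [mem_insert, mem_singleton] at h3
        rcases h3 with rfl | rfl
        · exact ⟨b, hab.symm, rfl⟩
        · exact ⟨a, hab, pair_comm a v⟩
    · exact Or.inl (ssubset_singleton_iff.1 h1)
  · rintro (rfl | ⟨w, hw, rfl⟩)
    · exact Or.inr (ssubset_singleton_iff.2 rfl)
    · left
      refine ⟨by simp, fun h1 => ?_⟩
      have h2 : w ∈ ({v} : Finset V) := h1 (by simp)
      exact hw (mem_singleton.1 h2)

theorem Disc.cmp_two (h : Disc G 3 B) {v w : V} (hvw : v ≠ w) {ρ : Finset V} (hρ : B ρ) :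
    (({v, w} : Finset V) ⊂ ρ ∨ ρ ⊂ {v, w}) ↔ ρ = ∅ ∨ ρ = {v} ∨ ρ = {w} := by
  constructor
  · rintro (h1 | h1)
    · have h2 := card_lt_card h1
      rw [card_pair hvw] at h2
      have := h.card_le hρ
      omega
    · have h2 := card_lt_card h1
      rw [card_pair hvw] at h2
      rcases h.cases hρ with rfl | ⟨a, rfl⟩ | ⟨a, b, hab, rfl⟩
      · exact Or.inl rfl
      · have h3 : a ∈ ({v, w} : Finset V) := h1.1 (mem_singleton_self a)
        rw [mem_insert, mem_singleton] at h3
        rcases h3 with rfl | rfl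
        · exact Or.inr (Or.inl rfl)
        · exact Or.inr (Or.inr rfl)
      · rw [card_pair hab] at h2
        omega
  · rintro (rfl | rfl | rfl)
    · exact Or.inr (empty_ssubset.2 ⟨v, by simp⟩)
    · right
      refine ⟨by simp, fun h1 => ?_⟩
      have h2 : w ∈ ({v} : Finset V) := h1 (by simp)
      exact hvw (mem_singleton.1 h2).symm
    · right
      refine ⟨by simp, fun h1 => ?_⟩
      have h2 : v ∈ ({w} : Finset V) := h1 (by simp)
      exact hvw (mem_singleton.1 h2)

theorem inr_eq {σ τ : {τ : Finset V // B τ}} :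
    (Sum.inr σ : V ⊕ {τ : Finset V // B τ}) = Sum.inr τ ↔ σ.1 = τ.1 :=
  ⟨fun h => congrArg Subtype.val (Sum.inr.inj h), fun h => congrArg Sum.inr (Subtype.ext h)⟩

theorem pair_eq {v a b : V} (ha : a ≠ v) : ({v, a} : Finset V) = {v, b} ↔ a = b := by
  constructor
  · intro h
    have h1 : a ∈ ({v, b} : Finset V) := h ▸ (by simp)
    rw [mem_insert, mem_singleton] at h1
    exact h1.resolve_left ha
  · rintro rfl
    rfl

theorem not_cmp_of_card {σ τ : Finset V} (h : σ.card = τ.card) : ¬ (σ ⊂ τ ∨ τ ⊂ σ) := by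
  rintro (h1 | h1)
  · have := card_lt_card h1
    omega
  · have := card_lt_card h1
    omega

theorem Disc.q_ll (h : Disc G 3 B) {u v : V} (huv : G.Adj u v) : Q2 (kg G B) (.inl u) (.inl v) := by
  by_cases hB : B {u, v}
  · obtain ⟨p, hp⟩ := h.two' huv.ne hB
    have hp' := (hp p).2 rfl
    refine ⟨.inl p, .inr ⟨{u, v}, hB⟩, by simp, ?_, ?_⟩
    · intro h1
      have h2 : p ∈ ({u, v} : Finset V) := h1
      rw [mem_insert, mem_singleton] at h2
      rcases h2 with rfl | rfl
      · exact G.loopless.irrefl _ hp'.1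
      · exact G.loopless.irrefl _ hp'.2
    · rintro (w | ⟨τ, hτ⟩)
      · change (G.Adj u w ∧ G.Adj v w) ↔ _
        rw [hp]
        simp
      · change (u ∈ τ ∧ v ∈ τ) ↔ _
        rw [inr_eq]
        constructor
        · rintro ⟨h1, h2⟩
          right
          symm
          refine eq_of_subset_of_card_le (fun x hx => ?_) ?_
          · rw [mem_insert, mem_singleton] at hx
            rcases hx with rfl | rfl
            · exact h1
            · exact h2
          · rw [card_pair huv.ne]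
            exact h.card_le hτ
        · rintro (h1 | h1)
          · simp at h1
          · change τ = {u, v} at h1
            rw [h1]
            simp
  · obtain ⟨p, q, hpq, hn, hp⟩ := h.two huv hB
    refine ⟨.inl p, .inl q, fun h1 => hpq (Sum.inl.inj h1), hn, ?_⟩
    rintro (w | ⟨τ, hτ⟩)
    · change (G.Adj u w ∧ G.Adj v w) ↔ _
      rw [hp, Sum.inl.injEq, Sum.inl.injEq]
    · change (u ∈ τ ∧ v ∈ τ) ↔ _
      constructor
      · rintro ⟨h1, h2⟩
        exfalso
        refine hB (h.sub _ _ hτ fun x hx => ?_)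
        rw [mem_insert, mem_singleton] at hx
        rcases hx with rfl | rfl
        · exact h1
        · exact h2
      · rintro (h1 | h1) <;> simp at h1

theorem mem_B_of {p : V} {v : V} (h : B {v, p}) (hd : Disc G 3 B) : B {p} :=
  hd.sub _ _ h (by simp)

theorem Disc.q_lr (h : Disc G 3 B) {v : V} {τ : Finset V} (hτ : B τ) (hv : v ∈ τ) :
    Q2 (kg G B) (.inl v) (.inr ⟨τ, hτ⟩) := by
  rcases h.cases hτ with rfl | ⟨a, rfl⟩ | ⟨a, b, hab, rfl⟩
  · exact absurd hv (notMem_empty v)
  · obtain rfl := mem_singleton.1 hv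
    obtain ⟨p, q, hpq, hw⟩ := h.one hτ
    have hp := (hw p).2 (Or.inl rfl)
    have hq := (hw q).2 (Or.inr rfl)
    refine ⟨.inr ⟨{v, p}, hp.2⟩, .inr ⟨{v, q}, hq.2⟩, ?_, ?_, ?_⟩
    · rw [Ne, inr_eq]
      exact fun h1 => hpq ((pair_eq hp.1).1 h1)
    · exact not_cmp_of_card (by
        change ({v, p} : Finset V).card = ({v, q} : Finset V).card
        rw [card_pair hp.1.symm, card_pair hq.1.symm])
    · rintro (w | ⟨ρ, hρ⟩)
      · change (G.Adj v w ∧ w ∈ ({v} : Finset V)) ↔ _
        constructor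
        · rintro ⟨h1, h2⟩
          exact absurd (mem_singleton.1 h2).symm h1.ne
        · rintro (h1 | h1) <;> simp at h1
      · change (v ∈ ρ ∧ (({v} : Finset V) ⊂ ρ ∨ ρ ⊂ {v})) ↔ _
        rw [h.cmp_one hρ, inr_eq, inr_eq]
        constructor
        · rintro ⟨h1, h2 | ⟨w, hwv, rfl⟩⟩
          · rw [h2] at h1
            exact absurd h1 (notMem_empty v)
          · rcases (hw w).1 ⟨hwv, hρ⟩ with rfl | rfl
            · exact Or.inl rfl
            · exact Or.inr rfl
        · rintro (h1 | h1)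
          · change ρ = {v, p} at h1
            rw [h1]
            exact ⟨by simp, Or.inr ⟨p, hp.1, rfl⟩⟩
          · change ρ = {v, q} at h1
            rw [h1]
            exact ⟨by simp, Or.inr ⟨q, hq.1, rfl⟩⟩
  · obtain ⟨w, hwv, hw⟩ : ∃ w, w ≠ v ∧ ({a, b} : Finset V) = {v, w} := by
      rw [mem_insert, mem_singleton] at hv
      rcases hv with rfl | rfl
      · exact ⟨b, hab.symm, rfl⟩
      · exact ⟨a, hab, pair_comm a v⟩
    have hB : B {v, w} := hw ▸ hτ
    have hadj : G.Adj v w := h.cl _ hB v (by simp) w (by simp) hwv.symm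
    have hBv : B {v} := h.sub _ _ hB (by simp)
    refine ⟨.inl w, .inr ⟨{v}, hBv⟩, by simp, ?_, ?_⟩
    · intro h1
      exact hwv (mem_singleton.1 h1)
    · rintro (u | ⟨ρ, hρ⟩)
      · change (G.Adj v u ∧ u ∈ ({a, b} : Finset V)) ↔ _
        rw [hw, mem_insert, mem_singleton, Sum.inl.injEq]
        constructor
        · rintro ⟨h1, h2 | h2⟩
          · exact absurd h2.symm h1.ne
          · exact Or.inl h2
        · rintro (rfl | h1)
          · exact ⟨hadj, Or.inr rfl⟩
          · simp at h1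
      · change (v ∈ ρ ∧ (({a, b} : Finset V) ⊂ ρ ∨ ρ ⊂ {a, b})) ↔ _
        rw [hw, h.cmp_two hwv.symm hρ, inr_eq]
        constructor
        · rintro ⟨h1, h2 | h2 | h2⟩
          · rw [h2] at h1
            exact absurd h1 (notMem_empty v)
          · exact Or.inr h2
          · rw [h2, mem_singleton] at h1
            exact absurd h1.symm hwv
        · rintro (h1 | h1)
          · simp at h1
          · change ρ = {v} at h1
            rw [h1]
            exact ⟨by simp, Or.inr (Or.inl rfl)⟩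

theorem Disc.q_rr (h : Disc G 3 B) {σ τ : Finset V} (hσ : B σ) (hτ : B τ) (hst : σ ⊂ τ) :
    Q2 (kg G B) (.inr ⟨σ, hσ⟩) (.inr ⟨τ, hτ⟩) := by
  rcases h.cases hσ with rfl | ⟨a, rfl⟩ | ⟨a, b, hab, rfl⟩
  · rcases h.cases hτ with rfl | ⟨v, rfl⟩ | ⟨v, w, hvw, rfl⟩
    · exact absurd hst (ssubset_irrefl _)
    · obtain ⟨p, q, hpq, hw⟩ := h.one hτ
      have hp := (hw p).2 (Or.inl rfl)
      have hq := (hw q).2 (Or.inr rfl)
      refine ⟨.inr ⟨{v, p}, hp.2⟩, .inr ⟨{v, q}, hq.2⟩, ?_, ?_, ?_⟩
      · rw [Ne, inr_eq]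
        exact fun h1 => hpq ((pair_eq hp.1).1 h1)
      · exact not_cmp_of_card (by
          change ({v, p} : Finset V).card = ({v, q} : Finset V).card
          rw [card_pair hp.1.symm, card_pair hq.1.symm])
      · rintro (w | ⟨ρ, hρ⟩)
        · change (w ∈ (∅ : Finset V) ∧ w ∈ ({v} : Finset V)) ↔ _
          constructor
          · rintro ⟨h1, -⟩
            exact absurd h1 (notMem_empty w)
          · rintro (h1 | h1) <;> simp at h1
        · change ((∅ ⊂ ρ ∨ ρ ⊂ ∅) ∧ (({v} : Finset V) ⊂ ρ ∨ ρ ⊂ {v})) ↔ _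
          rw [h.cmp_one hρ, inr_eq, inr_eq, cmp_zero]
          constructor
          · rintro ⟨h1, h2 | ⟨w, hwv, rfl⟩⟩
            · exact absurd h2 h1
            · rcases (hw w).1 ⟨hwv, hρ⟩ with rfl | rfl
              · exact Or.inl rfl
              · exact Or.inr rfl
          · rintro (h1 | h1)
            · change ρ = {v, p} at h1
              rw [h1]
              exact ⟨insert_ne_empty _ _, Or.inr ⟨p, hp.1, rfl⟩⟩
            · change ρ = {v, q} at h1
              rw [h1]
              exact ⟨insert_ne_empty _ _, Or.inr ⟨q, hq.1, rfl⟩⟩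
    · have hBv : B {v} := h.sub _ _ hτ (by simp)
      have hBw : B {w} := h.sub _ _ hτ (by simp)
      refine ⟨.inr ⟨{v}, hBv⟩, .inr ⟨{w}, hBw⟩, ?_, ?_, ?_⟩
      · rw [Ne, inr_eq]
        exact fun h1 => hvw (singleton_injective h1)
      · exact not_cmp_of_card (by
          change ({v} : Finset V).card = ({w} : Finset V).card
          rw [card_singleton, card_singleton])
      · rintro (u | ⟨ρ, hρ⟩)
        · change (u ∈ (∅ : Finset V) ∧ u ∈ ({v, w} : Finset V)) ↔ _
          constructor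
          · rintro ⟨h1, -⟩
            exact absurd h1 (notMem_empty u)
          · rintro (h1 | h1) <;> simp at h1
        · change ((∅ ⊂ ρ ∨ ρ ⊂ ∅) ∧ (({v, w} : Finset V) ⊂ ρ ∨ ρ ⊂ {v, w})) ↔ _
          rw [h.cmp_two hvw hρ, inr_eq, inr_eq, cmp_zero]
          constructor
          · rintro ⟨h1, h2 | h2⟩
            · exact absurd h2 h1
            · exact h2
          · intro h1
            refine ⟨?_, Or.inr h1⟩
            rcases h1 with h1 | h1
            · change ρ = {v} at h1
              rw [h1]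
              exact singleton_ne_empty v
            · change ρ = {w} at h1
              rw [h1]
              exact singleton_ne_empty w
  · obtain ⟨w, hwa, rfl⟩ : ∃ w, w ≠ a ∧ τ = {a, w} := by
      rcases (h.cmp_one hτ).1 (Or.inl hst) with rfl | h1
      · exact absurd hst (not_ssubset_empty _)
      · exact h1
    have hB0 : B ∅ := h.sub _ _ hτ (empty_subset _)
    refine ⟨.inl a, .inr ⟨∅, hB0⟩, by simp, ?_, ?_⟩
    · intro h1
      exact notMem_empty a h1
    · rintro (u | ⟨ρ, hρ⟩)
      · change (u ∈ ({a} : Finset V) ∧ u ∈ ({a, w} : Finset V)) ↔ _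
        rw [mem_singleton, mem_insert, Sum.inl.injEq]
        constructor
        · rintro ⟨h1, -⟩
          exact Or.inl h1
        · rintro (h1 | h1)
          · exact ⟨h1, Or.inl h1⟩
          · simp at h1
      · change ((({a} : Finset V) ⊂ ρ ∨ ρ ⊂ {a}) ∧ (({a, w} : Finset V) ⊂ ρ ∨ ρ ⊂ {a, w})) ↔ _
        rw [h.cmp_one hρ, h.cmp_two hwa.symm hρ, inr_eq]
        constructor
        · rintro ⟨h1, h2⟩
          right
          rcases h1 with h1 | ⟨x, hx, rfl⟩
          · exact h1
          · exfalso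
            rcases h2 with h2 | h2 | h2
            · exact insert_ne_empty _ _ h2
            · have h3 := congrArg card h2
              rw [card_pair hx.symm, card_singleton] at h3
              omega
            · have h3 := congrArg card h2
              rw [card_pair hx.symm, card_singleton] at h3
              omega
        · rintro (h1 | h1)
          · simp at h1
          · change ρ = ∅ at h1
            exact ⟨Or.inl h1, Or.inl h1⟩
  · exfalso
    have h1 := card_lt_card hst
    rw [card_pair hab] at h1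
    have := h.card_le hτ
    omega

/-- every edge of `kg G B` has exactly two common neighbours -/
theorem Disc.q2 (h : Disc G 3 B) (x y : V ⊕ {τ : Finset V // B τ}) (hxy : (kg G B).Adj x y) :
    ∃ p q, p ≠ q ∧ ¬ (kg G B).Adj p q ∧
      ∀ w, ((kg G B).Adj x w ∧ (kg G B).Adj y w) ↔ w = p ∨ w = q := by
  rcases x with u | ⟨σ, hσ⟩ <;> rcases y with v | ⟨τ, hτ⟩
  · exact h.q_ll hxy
  · exact h.q_lr hτ hxy
  · exact (h.q_lr hσ hxy).symm
  · rcases hxy with hxy | hxy
    · exact h.q_rr hσ hτ hxy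
    · exact (h.q_rr hτ hσ hxy).symm

end Pool.Agent.H19.BL
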