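import Pool.Agent.H19.BL.KG

/-!
# Project BL: a homology 2-ball is a full subcomplex of a homology 2-sphere (end of the proof)
-/

set_option autoImplicit false
set_option linter.unusedSectionVars false

open Finset

namespace Pool.Agent.H19.BL

open Pool.Agent.H85.Fold Pool.Agent.H85.Fold3 Pool.Agent.H85.Fold4

variable {V : Type} [DecidableEq V] [Fintype V] {G : SimpleGraph V} {B : Finset V → Prop}

noncomputable local instance : Fintype {τ : Finset V // B τ} := Fintype.ofFinite _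

theorem Disc.t2 (h : Disc G 3 B) : T2 (kg G B) := h.q2

/-- paths in the link of a vertex -/
abbrev Pth (K : SimpleGraph V) (x a b : V) : Prop :=
  Relation.ReflTransGen (fun a b => a ∈ nb K {x} ∧ b ∈ nb K {x} ∧ K.Adj a b) a b

theorem T2.sph_link {K : SimpleGraph V} (h : T2 K) (x a : V) (ha : K.Adj x a)
    (hc : ∀ y, K.Adj x y → Pth K x a y) : Sph (Fl K (nb K {x})) 2 :=
  h.circ x (ex_zero (mem_nb_one.2 ha)) (ex_one (mem_nb_one.2 ha) fun y hy => hc y (mem_nb_one.1 hy))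

theorem pth_one {K : SimpleGraph V} {x a b : V} (ha : K.Adj x a) (hb : K.Adj x b) (hab : K.Adj a b) :
    Pth K x a b := Relation.ReflTransGen.single ⟨mem_nb_one.2 ha, mem_nb_one.2 hb, hab⟩

/-- vertices of the boundary -/
theorem Disc.link_bv (h : Disc G 3 B) {v : V} (hv : B {v}) :
    Sph (Fl (kg G B) (nb (kg G B) {.inr ⟨{v}, hv⟩})) 2 := by
  have hB0 : B ∅ := h.sub _ _ hv (empty_subset _)
  have hc : (kg G B).Adj (.inr ⟨{v}, hv⟩) (.inr ⟨∅, hB0⟩) :=
    Or.inr (empty_ssubset.2 (singleton_nonempty v))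
  have he : ∀ w, w ≠ v → ∀ hw : B {v, w}, Pth (kg G B) (.inr ⟨{v}, hv⟩) (.inr ⟨∅, hB0⟩) (.inr ⟨{v, w}, hw⟩) := by
    intro w hwv hw
    refine pth_one hc ((h.cmp_one hw).2 (Or.inr ⟨w, hwv, rfl⟩)) (cmp_zero.2 (insert_ne_empty _ _))
  refine h.t2.sph_link _ (.inr ⟨∅, hB0⟩) hc ?_
  rintro (u | ⟨ρ, hρ⟩) hy
  · obtain rfl : u = v := mem_singleton.1 hy
    obtain ⟨p, q, hpq, hw⟩ := h.one hv
    have hp := (hw p).2 (Or.inl rfl)
    refine (he p hp.1 hp.2).trans (pth_one ((h.cmp_one hp.2).2 (Or.inr ⟨p, hp.1, rfl⟩)) hy ?_)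
    change u ∈ ({u, p} : Finset V)
    simp
  · rcases (h.cmp_one hρ).1 hy with rfl | ⟨w, hwv, rfl⟩
    · exact Relation.ReflTransGen.refl
    · exact he w hwv hρ

/-- edges of the boundary -/
theorem Disc.link_be (h : Disc G 3 B) {v w : V} (hvw : v ≠ w) (hB : B {v, w}) :
    Sph (Fl (kg G B) (nb (kg G B) {.inr ⟨{v, w}, hB⟩})) 2 := by
  have hB0 : B ∅ := h.sub _ _ hB (empty_subset _)
  have hBv : B {v} := h.sub _ _ hB (by simp)
  have hBw : B {w} := h.sub _ _ hB (by simp)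
  have hc : (kg G B).Adj (.inr ⟨{v, w}, hB⟩) (.inr ⟨∅, hB0⟩) :=
    (h.cmp_two hvw hB0).2 (Or.inl rfl)
  have av : (kg G B).Adj (.inr ⟨{v, w}, hB⟩) (.inr ⟨{v}, hBv⟩) :=
    (h.cmp_two hvw hBv).2 (Or.inr (Or.inl rfl))
  have aw : (kg G B).Adj (.inr ⟨{v, w}, hB⟩) (.inr ⟨{w}, hBw⟩) :=
    (h.cmp_two hvw hBw).2 (Or.inr (Or.inr rfl))
  have pv : Pth (kg G B) (.inr ⟨{v, w}, hB⟩) (.inr ⟨∅, hB0⟩) (.inr ⟨{v}, hBv⟩) :=
    pth_one hc av (cmp_zero.2 (singleton_ne_empty _))
  have pw : Pth (kg G B) (.inr ⟨{v, w}, hB⟩) (.inr ⟨∅, hB0⟩) (.inr ⟨{w}, hBw⟩) :=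
    pth_one hc aw (cmp_zero.2 (singleton_ne_empty _))
  refine h.t2.sph_link _ (.inr ⟨∅, hB0⟩) hc ?_
  rintro (u | ⟨ρ, hρ⟩) hy
  · have hu : u ∈ ({v, w} : Finset V) := hy
    rw [mem_insert, mem_singleton] at hu
    rcases hu with rfl | rfl
    · exact pv.trans (pth_one av hy (mem_singleton_self u))
    · exact pw.trans (pth_one aw hy (mem_singleton_self u))
  · rcases (h.cmp_two hvw hρ).1 hy with rfl | rfl | rfl
    · exact Relation.ReflTransGen.refl
    · exact pv
    · exact pw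

/-- the apex -/
theorem Disc.link_c (h : Disc G 3 B) (hB0 : B ∅) :
    Sph (Fl (kg G B) (nb (kg G B) {.inr ⟨∅, hB0⟩})) 2 := by
  have hs := h.bd ∅ hB0
  rw [card_empty] at hs
  obtain ⟨ν, hν⟩ : ∃ ν : V → ℕ, Function.Injective ν :=
    ⟨fun v => (Fintype.equivFin V v : ℕ), fun u v huv => (Fintype.equivFin V).injective (Fin.ext huv)⟩
  obtain ⟨o, ho, -, hne, -⟩ := hs.top ν hν
  obtain ⟨σ, hσ⟩ : ∃ σ, o σ ≠ 0 := by
    by_contra hc
    push Not at hc
    exact hne (funext hc)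
  obtain ⟨h1, h2⟩ := ho σ hσ
  obtain ⟨v, hvσ⟩ : σ.Nonempty := by
    rw [← card_pos]
    omega
  have hlk : ∀ τ, lkP B ∅ τ ↔ B τ := by
    intro τ
    unfold lkP
    rw [union_empty]
    exact ⟨fun h => h.2, fun h => ⟨disjoint_empty_right _, h⟩⟩
  have hBv : B {v} := h.sub _ _ ((hlk σ).1 h1) (singleton_subset_iff.2 hvσ)
  have ha : ∀ τ, ∀ hτ : B τ, τ ≠ ∅ → (kg G B).Adj (.inr ⟨∅, hB0⟩) (.inr ⟨τ, hτ⟩) :=
    fun τ hτ hne => cmp_zero.2 hne
  have hpath : ∀ w, ∀ hw : B {w}, Pth (kg G B) (.inr ⟨∅, hB0⟩) (.inr ⟨{v}, hBv⟩) (.inr ⟨{w}, hw⟩) := by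
    intro w hw
    have h3 := conn_of_ex (Δ := lkP B ∅) (fun ν hν z hz hz0 => hs.low ν hν 1 (by omega) z hz hz0)
      ((hlk {v}).2 hBv) ((hlk {w}).2 hw)
    revert hw
    induction h3 with
    | refl => intro hw; exact Relation.ReflTransGen.refl
    | @tail a b _ hab ih =>
      intro hw
      have hab' : B {a, b} := (hlk _).1 hab
      have hBa : B {a} := h.sub _ _ hab' (by simp)
      by_cases h4 : a = b
      · subst h4
        exact ih hBa
      · refine (ih hBa).trans ((pth_one (ha _ hBa (singleton_ne_empty _)) (ha _ hab' (insert_ne_empty _ _))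
          ((h.cmp_one hab').2 (Or.inr ⟨b, fun h5 => h4 h5.symm, rfl⟩))).trans
          (pth_one (ha _ hab' (insert_ne_empty _ _)) (ha _ hw (singleton_ne_empty _))
          ((h.cmp_two h4 hw).2 (Or.inr (Or.inr rfl)))))
  refine h.t2.sph_link _ (.inr ⟨{v}, hBv⟩) (ha _ hBv (singleton_ne_empty _)) ?_
  rintro (u | ⟨ρ, hρ⟩) hy
  · exact absurd hy (notMem_empty u)
  · rcases h.cases hρ with rfl | ⟨a, rfl⟩ | ⟨a, b, hab, rfl⟩
    · exact absurd rfl (cmp_zero.1 hy)
    · exact hpath a hρ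
    · have hBa : B {a} := h.sub _ _ hρ (by simp)
      exact (hpath a hBa).trans (pth_one (ha _ hBa (singleton_ne_empty _)) hy
        ((h.cmp_one hρ).2 (Or.inr ⟨b, hab.symm, rfl⟩)))

/-- vertices of the ball on the boundary -/
theorem Disc.link_b (h : Disc G 3 B) {v : V} (hv : B {v}) :
    Sph (Fl (kg G B) (nb (kg G B) {.inl v})) 2 := by
  obtain ⟨p, q, hpq, hw⟩ := h.one hv
  have hp := (hw p).2 (Or.inl rfl)
  have hadj : ∀ w, w ≠ v → B {v, w} → G.Adj v w := fun w hwv hB =>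
    h.cl _ hB v (by simp) w (by simp) hwv.symm
  have hpath : ∀ w, G.Adj v w → Pth (kg G B) (.inl v) (.inl p) (.inl w) := by
    intro w hvw
    have hlk : ∀ σ, lkP (Cl G) {v} σ ↔ Fl G (nb G {v}) σ := link_iff_fl (cl_single v)
    have h3 := conn_of_ex (Δ := lkP (Cl G) {v}) (h.ball {v} hv 1)
      ((hlk {p}).2 ⟨singleton_subset_iff.2 (mem_nb_one.2 (hadj p hp.1 hp.2)), cl_single p⟩)
      ((hlk {w}).2 ⟨singleton_subset_iff.2 (mem_nb_one.2 hvw), cl_single w⟩)
    revert hvw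
    induction h3 with
    | refl => intro _; exact Relation.ReflTransGen.refl
    | @tail a b _ hab ih =>
      intro hvb
      obtain ⟨h4, h5⟩ := (hlk _).1 hab
      have hva : G.Adj v a := mem_nb_one.1 (h4 (by simp))
      by_cases h6 : a = b
      · subst h6
        exact ih hva
      · exact (ih hva).trans (pth_one (K := kg G B) (x := .inl v) (a := .inl a) (b := .inl b) hva hvb
          (h5 a (by simp) b (by simp) h6))
  have hpe : ∀ w, w ≠ v → ∀ hB : B {v, w}, Pth (kg G B) (.inl v) (.inl p) (.inr ⟨{v, w}, hB⟩) := by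
    intro w hwv hB
    refine (hpath w (hadj w hwv hB)).trans (pth_one (hadj w hwv hB) ?_ ?_)
    · change v ∈ ({v, w} : Finset V)
      simp
    · change w ∈ ({v, w} : Finset V)
      simp
  refine h.t2.sph_link _ (.inl p) (hadj p hp.1 hp.2) ?_
  rintro (u | ⟨ρ, hρ⟩) hy
  · exact hpath u hy
  · rcases h.cases hρ with rfl | ⟨a, rfl⟩ | ⟨a, b, hab, rfl⟩
    · exact absurd hy (notMem_empty v)
    · obtain rfl : v = a := mem_singleton.1 hy
      refine (hpe p hp.1 hp.2).trans (pth_one ?_ hy ?_)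
      · change v ∈ ({v, p} : Finset V)
        simp
      · exact ((h.cmp_one hp.2).2 (Or.inr ⟨p, hp.1, rfl⟩)).symm
    · have hv' : v ∈ ({a, b} : Finset V) := hy
      rw [mem_insert, mem_singleton] at hv'
      rcases hv' with rfl | rfl
      · exact hpe b hab.symm hρ
      · have e : ({a, v} : Finset V) = {v, a} := pair_comm a v
        have h1 : (⟨{a, v}, hρ⟩ : {τ : Finset V // B τ}) = ⟨{v, a}, e ▸ hρ⟩ := Subtype.ext e
        rw [h1]
        exact hpe a hab (e ▸ hρ)

/-- the embedding of the ball -/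
def inlE (B : Finset V → Prop) : V ↪ V ⊕ {τ : Finset V // B τ} := ⟨Sum.inl, Sum.inl_injective⟩

theorem mem_inlE {σ : Finset V} {x : V ⊕ {τ : Finset V // B τ}} :
    x ∈ σ.map (inlE B) ↔ ∃ v ∈ σ, x = .inl v := by
  rw [mem_map]
  exact ⟨fun ⟨a, ha, h⟩ => ⟨a, ha, h.symm⟩, fun ⟨a, ha, h⟩ => ⟨a, ha, h.symm⟩⟩

theorem fl_map {U : Finset V} (σ' : Finset (V ⊕ {τ : Finset V // B τ})) :
    (∃ σ, Fl G U σ ∧ σ' = σ.map (inlE B)) ↔ Fl (kg G B) (U.map (inlE B)) σ' := by
  constructor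
  · rintro ⟨σ, ⟨h1, h2⟩, rfl⟩
    refine ⟨map_subset_map.2 h1, fun x hx y hy hxy => ?_⟩
    obtain ⟨a, ha, rfl⟩ := mem_inlE.1 hx
    obtain ⟨b, hb, rfl⟩ := mem_inlE.1 hy
    exact h2 a ha b hb fun h3 => hxy (by rw [h3])
  · rintro ⟨h1, h2⟩
    obtain ⟨σ, h3, rfl⟩ := subset_map_iff.1 h1
    refine ⟨σ, ⟨h3, fun a ha b hb hab => ?_⟩, rfl⟩
    exact h2 (.inl a) (mem_inlE.2 ⟨a, ha, rfl⟩) (.inl b) (mem_inlE.2 ⟨b, hb, rfl⟩)
      fun h4 => hab (Sum.inl.inj h4)

/-- the other vertices of the ball -/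
theorem Disc.link_i (h : Disc G 3 B) {v : V} (hv : ¬ B {v}) :
    Sph (Fl (kg G B) (nb (kg G B) {.inl v})) 2 := by
  have h1 := (h.sph {v} (cl_single v) hv).map (inlE B)
  rw [card_singleton] at h1
  refine sph_congr h1 fun σ' => ?_
  have h2 : nb (kg G B) {.inl v} = (nb G {v}).map (inlE B) := by
    ext x
    rw [mem_nb_one, mem_inlE]
    constructor
    · intro hx
      rcases x with u | ⟨ρ, hρ⟩
      · exact ⟨u, mem_nb_one.2 hx, rfl⟩
      · exact absurd (h.sub _ _ hρ (singleton_subset_iff.2 hx)) hv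
    · rintro ⟨u, hu, rfl⟩
      exact (mem_nb_one (K := G)).1 hu
  rw [h2, ← fl_map]
  unfold lkP
  simp only [link_iff_fl (cl_single v)]

theorem Disc.link_all (h : Disc G 3 B) (x : V ⊕ {τ : Finset V // B τ}) :
    Sph (Fl (kg G B) (nb (kg G B) {x})) 2 := by
  rcases x with v | ⟨ρ, hρ⟩
  · by_cases hv : B {v}
    · exact h.link_b hv
    · exact h.link_i hv
  · rcases h.cases hρ with rfl | ⟨a, rfl⟩ | ⟨a, b, hab, rfl⟩
    · exact h.link_c hρ
    · exact h.link_bv hρ
    · exact h.link_be hab hρ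

open Classical in
/-- adding an independent set of vertices with acyclic links -/
theorem Ac.union {K : SimpleGraph V} {U : Finset V} (hU : Ac K U) (T : Finset V)
    (hd : ∀ t ∈ T, t ∉ U) (hi : ∀ s ∈ T, ∀ t ∈ T, ¬ K.Adj s t)
    (hl : ∀ t ∈ T, Ac K (U.filter (K.Adj t))) : Ac K (U ∪ T) := by
  induction T using Finset.induction_on with
  | empty => rw [union_empty]; exact hU
  | insert t T ht ih =>
    rw [union_insert]
    refine Ac.ins ?_ (ih (fun s hs => hd s (mem_insert_of_mem hs))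
      (fun s hs u hu => hi s (mem_insert_of_mem hs) u (mem_insert_of_mem hu))
      fun s hs => hl s (mem_insert_of_mem hs)) ?_
    · rw [mem_union, not_or]
      exact ⟨hd t (mem_insert_self t T), ht⟩
    · have h1 : (U ∪ T).filter (K.Adj t) = U.filter (K.Adj t) := by
        rw [filter_union]
        have h2 : T.filter (K.Adj t) = ∅ := by
          rw [filter_eq_empty_iff]
          exact fun s hs => hi t (mem_insert_self t T) s (mem_insert_of_mem hs)
        rw [h2, union_empty]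
      rw [h1]
      exact hl t (mem_insert_self t T)

theorem Disc.univ_sph (h : Disc G 3 B) (hB0 : B ∅) : Sph (Fl (kg G B) univ) 3 := by
  classical
  -- the ball
  have h1 : Ac (kg G B) (univ.map (inlE B)) := by
    intro j
    refine Ex.congr ((h.ball ∅ hB0 j).map (inlE B)) fun σ' => ?_
    rw [← fl_map]
    have h2 : ∀ σ, lkP (Cl G) ∅ σ ↔ Fl G univ σ := by
      intro σ
      unfold lkP Fl
      rw [union_empty]
      exact ⟨fun h => ⟨subset_univ σ, h.2⟩, fun h => ⟨disjoint_empty_right _, h.2⟩⟩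
    simp only [h2]
  -- vertices of the boundary
  obtain ⟨T1, hT1⟩ : ∃ T1 : Finset (V ⊕ {τ : Finset V // B τ}), ∀ x, x ∈ T1 ↔
      ∃ v, ∃ hv : B {v}, x = .inr ⟨{v}, hv⟩ :=
    ⟨univ.filter fun x => ∃ v, ∃ hv : B {v}, x = .inr ⟨{v}, hv⟩, fun x => by
      rw [mem_filter]; exact ⟨fun h => h.2, fun h => ⟨mem_univ _, h⟩⟩⟩
  obtain ⟨T2, hT2⟩ : ∃ T2 : Finset (V ⊕ {τ : Finset V // B τ}), ∀ x, x ∈ T2 ↔
      ∃ v w, v ≠ w ∧ ∃ hv : B {v, w}, x = .inr ⟨{v, w}, hv⟩ :=
    ⟨univ.filter fun x => ∃ v w, v ≠ w ∧ ∃ hv : B {v, w}, x = .inr ⟨{v, w}, hv⟩, fun x => by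
      rw [mem_filter]; exact ⟨fun h => h.2, fun h => ⟨mem_univ _, h⟩⟩⟩
  have h2 : Ac (kg G B) (univ.map (inlE B) ∪ T1) := by
    refine h1.union T1 ?_ ?_ ?_
    · intro t ht ht'
      obtain ⟨v, hv, rfl⟩ := (hT1 t).1 ht
      obtain ⟨a, -, ha⟩ := mem_inlE.1 ht'
      simp at ha
    · intro s hs t ht
      obtain ⟨v, hv, rfl⟩ := (hT1 s).1 hs
      obtain ⟨w, hw, rfl⟩ := (hT1 t).1 ht
      exact not_cmp_of_card (by
        change ({v} : Finset V).card = ({w} : Finset V).card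
        rw [card_singleton, card_singleton])
    · intro t ht
      obtain ⟨v, hv, rfl⟩ := (hT1 t).1 ht
      have h3 : (univ.map (inlE B)).filter ((kg G B).Adj (.inr ⟨{v}, hv⟩)) = {.inl v} := by
        ext x
        rw [mem_filter, mem_inlE, mem_singleton]
        constructor
        · rintro ⟨⟨a, -, rfl⟩, h4⟩
          rw [mem_singleton.1 (show a ∈ ({v} : Finset V) from h4)]
        · rintro rfl
          exact ⟨⟨v, mem_univ v, rfl⟩, mem_singleton_self v⟩
      rw [h3]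
      exact ac_single _
  have h3 : Ac (kg G B) ((univ.map (inlE B) ∪ T1) ∪ T2) := by
    refine h2.union T2 ?_ ?_ ?_
    · intro t ht ht'
      obtain ⟨v, w, hvw, hv, rfl⟩ := (hT2 t).1 ht
      rcases mem_union.1 ht' with ht' | ht'
      · obtain ⟨a, -, ha⟩ := mem_inlE.1 ht'
        simp at ha
      · obtain ⟨a, ha, ha'⟩ := (hT1 _).1 ht'
        have h4 := congrArg card (inr_eq.1 ha')
        change ({v, w} : Finset V).card = ({a} : Finset V).card at h4
        rw [card_pair hvw, card_singleton] at h4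
        omega
    · intro s hs t ht
      obtain ⟨v, w, hvw, hv, rfl⟩ := (hT2 s).1 hs
      obtain ⟨v', w', hvw', hv', rfl⟩ := (hT2 t).1 ht
      exact not_cmp_of_card (by
        change ({v, w} : Finset V).card = ({v', w'} : Finset V).card
        rw [card_pair hvw, card_pair hvw'])
    · intro t ht
      obtain ⟨v, w, hvw, hB, rfl⟩ := (hT2 t).1 ht
      have hBv : B {v} := h.sub _ _ hB (by simp)
      have hBw : B {w} := h.sub _ _ hB (by simp)
      have hadj : G.Adj v w := h.cl _ hB v (by simp) w (by simp) hvw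
      have h4 : (univ.map (inlE B) ∪ T1).filter ((kg G B).Adj (.inr ⟨{v, w}, hB⟩)) =
          insert (.inr ⟨{v}, hBv⟩) (insert (.inr ⟨{w}, hBw⟩) {.inl v, .inl w}) := by
        ext x
        rw [mem_filter, mem_union, mem_inlE, hT1]
        constructor
        · rintro ⟨⟨a, -, rfl⟩ | ⟨a, ha, rfl⟩, h5⟩
          · have h6 : a ∈ ({v, w} : Finset V) := h5
            rw [mem_insert, mem_singleton] at h6
            rcases h6 with rfl | rfl <;> simp
          · rcases (h.cmp_two hvw ha).1 h5 with h6 | h6 | h6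
            · exact absurd h6 (singleton_ne_empty a)
            · obtain rfl : a = v := singleton_injective h6
              simp
            · obtain rfl : a = w := singleton_injective h6
              simp
        · intro hx
          rw [mem_insert, mem_insert, mem_insert, mem_singleton] at hx
          rcases hx with rfl | rfl | rfl | rfl
          · exact ⟨Or.inr ⟨v, hBv, rfl⟩, (h.cmp_two hvw hBv).2 (Or.inr (Or.inl rfl))⟩
          · exact ⟨Or.inr ⟨w, hBw, rfl⟩, (h.cmp_two hvw hBw).2 (Or.inr (Or.inr rfl))⟩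
          · refine ⟨Or.inl ⟨v, mem_univ v, rfl⟩, ?_⟩
            change v ∈ ({v, w} : Finset V)
            simp
          · refine ⟨Or.inl ⟨w, mem_univ w, rfl⟩, ?_⟩
            change w ∈ ({v, w} : Finset V)
            simp
      rw [h4]
      refine Ac.ins ?_ (Ac.ins ?_ (ac_cone (v := .inl v) (by simp) ?_) ?_) ?_
      · rw [mem_insert, inr_eq]
        intro h5
        rcases h5 with h5 | h5
        · exact hvw (singleton_injective h5)
        · simp at h5
      · simp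
      · intro x hx hxv
        rw [mem_insert, mem_singleton] at hx
        rcases hx with rfl | rfl
        · exact absurd rfl hxv
        · exact hadj
      · have h5 : ({.inl v, .inl w} : Finset (V ⊕ {τ : Finset V // B τ})).filter
            ((kg G B).Adj (.inr ⟨{w}, hBw⟩)) = {.inl w} := by
          ext x
          rw [mem_filter, mem_insert, mem_singleton]
          constructor
          · rintro ⟨rfl | rfl, h6⟩
            · exact absurd (mem_singleton.1 (show v ∈ ({w} : Finset V) from h6)) hvw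
            · rfl
          · rintro rfl
            exact ⟨Or.inr rfl, mem_singleton_self w⟩
        rw [h5]
        exact ac_single _
      · have h5 : (insert (.inr ⟨{w}, hBw⟩) ({.inl v, .inl w} : Finset (V ⊕ {τ : Finset V // B τ}))).filter
            ((kg G B).Adj (.inr ⟨{v}, hBv⟩)) = {.inl v} := by
          ext x
          rw [mem_filter, mem_insert, mem_insert, mem_singleton, mem_singleton]
          constructor
          · rintro ⟨rfl | rfl | rfl, h6⟩
            · exact absurd h6 (not_cmp_of_card (by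
                change ({v} : Finset V).card = ({w} : Finset V).card
                rw [card_singleton, card_singleton]))
            · rfl
            · exact absurd (mem_singleton.1 (show w ∈ ({v} : Finset V) from h6)).symm hvw
          · rintro rfl
            exact ⟨Or.inr (Or.inl rfl), mem_singleton_self v⟩
        rw [h5]
        exact ac_single _
  -- the apex
  have hmem : ∀ x, x ∈ ((univ.map (inlE B) ∪ T1) ∪ T2) ↔ x ≠ .inr ⟨∅, hB0⟩ := by
    intro x
    rw [mem_union, mem_union, mem_inlE, hT1, hT2]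
    constructor
    · rintro ((⟨a, -, rfl⟩ | ⟨a, ha, rfl⟩) | ⟨a, b, hab, hB, rfl⟩)
      · simp
      · rw [Ne, inr_eq]
        exact singleton_ne_empty a
      · rw [Ne, inr_eq]
        exact insert_ne_empty _ _
    · intro hx
      rcases x with u | ⟨ρ, hρ⟩
      · exact Or.inl (Or.inl ⟨u, mem_univ u, rfl⟩)
      · rcases h.cases hρ with rfl | ⟨a, rfl⟩ | ⟨a, b, hab, rfl⟩
        · exact absurd rfl hx
        · exact Or.inl (Or.inr ⟨a, hρ, rfl⟩)
        · exact Or.inr ⟨a, b, hab, hρ, rfl⟩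
  have h4 : ((univ.map (inlE B) ∪ T1) ∪ T2).filter ((kg G B).Adj (.inr ⟨∅, hB0⟩)) =
      nb (kg G B) {.inr ⟨∅, hB0⟩} := by
    ext x
    rw [mem_filter, hmem, mem_nb_one]
    exact ⟨fun h => h.2, fun h => ⟨h.ne.symm, h⟩⟩
  have h5 := Ac.sph (m := 2) (fun h6 => (hmem (.inr ⟨∅, hB0⟩)).1 h6 rfl) h3
    (fun σ hσ => h.t2.dim hσ.2) (by rw [h4]; exact h.link_c hB0)
  have h6 : insert (.inr ⟨∅, hB0⟩) ((univ.map (inlE B) ∪ T1) ∪ T2) = univ := by
    refine eq_univ_of_forall fun x => ?_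
    rw [mem_insert, hmem]
    by_cases hx : x = .inr ⟨∅, hB0⟩
    · exact Or.inl hx
    · exact Or.inr hx
  rwa [h6] at h5

/-- **A homology 2-ball is a full subcomplex of a homology 2-sphere.** -/
theorem Disc.embed (h : Disc G 3 B) :
    ∃ (W : Type) (_ : DecidableEq W) (_ : Fintype W) (K : SimpleGraph W),
      IsHomologySphere K 3 ∧ Nonempty (G ↪g K) := by
  by_cases hB0 : B ∅
  · exact ⟨V ⊕ {τ : Finset V // B τ}, inferInstance, inferInstance, kg G B,
      sphere3 h.t2 h.link_all (h.univ_sph hB0), ⟨⟨⟨Sum.inl, Sum.inl_injective⟩, Iff.rfl⟩⟩⟩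
  · exact ⟨V, inferInstance, inferInstance, G, h.sphere hB0, ⟨SimpleGraph.Embedding.refl⟩⟩

end Pool.Agent.H19.BL
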